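import Mathlib

/-!
# Zeros of quadratic functions on the cube: the method of influences
-/

set_option autoImplicit false
set_option linter.unusedSectionVars false

namespace Pool.Agent.Y1.CO.Cube

open Finset

variable {ι : Type} [Fintype ι] [DecidableEq ι]

/-- the sign of a coordinate -/
def e (s : ι → Bool) (i : ι) : ℝ := if s i then 1 else -1

/-- the point with the coordinate `i` changed -/
def flip (i : ι) (s : ι → Bool) : ι → Bool := Function.update s i (!(s i))

theorem flip_flip (i : ι) (s : ι → Bool) : flip i (flip i s) = s := by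
  funext j
  unfold flip
  by_cases h : j = i
  · subst h
    simp
  · simp [h]

theorem e_flip (i : ι) (s : ι → Bool) : e (flip i s) i = - e s i := by
  unfold e flip
  rw [Function.update_self]
  by_cases h : s i <;> simp [h]

theorem e_flip_ne {i j : ι} (h : j ≠ i) (s : ι → Bool) : e (flip i s) j = e s j := by
  unfold e flip
  rw [Function.update_of_ne h]

theorem flip_comm (i j : ι) (s : ι → Bool) : flip i (flip j s) = flip j (flip i s) := by
  funext k
  by_cases hij : i = j
  · subst hij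
    rfl
  · unfold flip
    by_cases h1 : k = i
    · subst h1
      simp [hij]
    · by_cases h2 : k = j
      · subst h2
        simp [h1]
      · simp [h1, h2]

theorem e_mul_self (s : ι → Bool) (i : ι) : e s i * e s i = 1 := by
  unfold e
  by_cases h : s i <;> simp [h]

theorem sum_flip (i : ι) (f : (ι → Bool) → ℝ) : ∑ s, f (flip i s) = ∑ s, f s :=
  Fintype.sum_equiv ⟨flip i, flip i, flip_flip i, flip_flip i⟩ _ _ fun _ => rfl

theorem sum_zero (i : ι) (f : (ι → Bool) → ℝ) (h : ∀ s, f (flip i s) = - f s) :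
    ∑ s, f s = 0 := by
  have h1 := sum_flip i f
  rw [sum_congr rfl fun s _ => h s, sum_neg_distrib] at h1
  linarith

/-- the real sign -/
noncomputable def sn (x : ℝ) : ℝ := if 0 < x then 1 else if x < 0 then -1 else 0

theorem sn_pos {x : ℝ} (h : 0 < x) : sn x = 1 := if_pos h

theorem sn_neg {x : ℝ} (h : x < 0) : sn x = -1 := by
  unfold sn
  rw [if_neg (by linarith), if_pos h]

theorem sn_zero : sn 0 = 0 := by
  unfold sn
  simp

theorem abs_sn_le (x : ℝ) : |sn x| ≤ 1 := by
  rcases lt_trichotomy x 0 with h | h | h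
  · rw [sn_neg h]; simp
  · rw [h, sn_zero]; simp
  · rw [sn_pos h]; simp

theorem sn_e_mul (s : ι → Bool) (i : ι) (x : ℝ) : sn (e s i * x) = e s i * sn x := by
  unfold e
  by_cases h : s i
  · simp [h]
  · simp only [h, Bool.false_eq_true, if_false]
    rcases lt_trichotomy x 0 with h1 | h1 | h1
    · rw [sn_neg h1, sn_pos (by linarith)]; norm_num
    · rw [h1]; simp [sn_zero]
    · rw [sn_pos h1, sn_neg (by linarith)]; norm_num

theorem sn_sub (a b : ℝ) :
    (if a = 0 ∧ a ≠ b then (1 : ℝ) else 0) + (if b = 0 ∧ a ≠ b then (1 : ℝ) else 0) ≤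
      (sn a - sn b) * sn (a - b) := by
  have ia : a ≠ 0 → (if a = 0 ∧ a ≠ b then (1 : ℝ) else 0) = 0 := fun h =>
    if_neg fun h' => h h'.1
  have ib : b ≠ 0 → (if b = 0 ∧ a ≠ b then (1 : ℝ) else 0) = 0 := fun h =>
    if_neg fun h' => h h'.1
  have ja : (if a = 0 ∧ a ≠ b then (1 : ℝ) else 0) ≤ 1 := by split_ifs <;> norm_num
  have jb : (if b = 0 ∧ a ≠ b then (1 : ℝ) else 0) ≤ 1 := by split_ifs <;> norm_num
  rcases lt_trichotomy a b with hab | hab | hab
  · rw [sn_neg (by linarith : a - b < 0)]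
    rcases lt_trichotomy a 0 with h1 | h1 | h1
    · rw [sn_neg h1, ia h1.ne]
      rcases lt_trichotomy b 0 with h2 | h2 | h2
      · rw [sn_neg h2, ib h2.ne]
        norm_num
      · rw [h2] at jb ⊢
        rw [sn_zero]
        linarith
      · rw [sn_pos h2, ib h2.ne']
        norm_num
    · have h2 : 0 < b := by linarith
      rw [ib h2.ne', sn_pos h2]
      rw [h1] at ja ⊢
      rw [sn_zero]
      linarith
    · have h2 : 0 < b := by linarith
      rw [sn_pos h1, sn_pos h2, ia h1.ne', ib h2.ne']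
      norm_num
  · subst hab
    simp
  · rw [sn_pos (by linarith : 0 < a - b)]
    rcases lt_trichotomy b 0 with h1 | h1 | h1
    · rw [sn_neg h1, ib h1.ne]
      rcases lt_trichotomy a 0 with h2 | h2 | h2
      · rw [sn_neg h2, ia h2.ne]
        norm_num
      · rw [h2] at ja ⊢
        rw [sn_zero]
        linarith
      · rw [sn_pos h2, ia h2.ne']
        norm_num
    · have h2 : 0 < a := by linarith
      rw [ia h2.ne', sn_pos h2]
      rw [h1] at jb ⊢
      rw [sn_zero]
      linarith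
    · have h2 : 0 < a := by linarith
      rw [sn_pos h1, sn_pos h2, ia h2.ne', ib h1.ne']
      norm_num

/-- The influence inequality. -/
theorem influence (J : Finset ι) (q : (ι → Bool) → ℝ) (L : ι → (ι → Bool) → ℝ)
    (hq : ∀ i ∈ J, ∀ s, q s - q (flip i s) = 2 * (e s i * L i s))
    (hL : ∀ i ∈ J, ∀ s, L i (flip i s) = L i s) :
    ∑ i ∈ J, ∑ s, (if q s = 0 ∧ L i s ≠ 0 then (1 : ℝ) else 0) ≤
      ∑ s, |∑ i ∈ J, e s i * sn (L i s)| := by
  have key : ∀ i ∈ J, ∑ s, (if q s = 0 ∧ L i s ≠ 0 then (1 : ℝ) else 0) ≤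
      ∑ s, sn (q s) * (e s i * sn (L i s)) := by
    intro i hi
    have h1 : ∑ s, sn (q (flip i s)) * (e s i * sn (L i s)) =
        - ∑ s, sn (q s) * (e s i * sn (L i s)) := by
      rw [← sum_flip i, ← sum_neg_distrib]
      refine sum_congr rfl fun s _ => ?_
      rw [flip_flip, e_flip, hL i hi]
      ring
    have h2 : ∑ s, (if q (flip i s) = 0 ∧ L i s ≠ 0 then (1 : ℝ) else 0) =
        ∑ s, (if q s = 0 ∧ L i s ≠ 0 then (1 : ℝ) else 0) := by
      rw [← sum_flip i (fun s => if q s = 0 ∧ L i s ≠ 0 then (1 : ℝ) else 0)]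
      refine sum_congr rfl fun s _ => ?_
      show _ = if q (flip i s) = 0 ∧ L i (flip i s) ≠ 0 then (1 : ℝ) else 0
      rw [hL i hi]
    have h3 : ∀ s, (if q s = 0 ∧ L i s ≠ 0 then (1 : ℝ) else 0) +
        (if q (flip i s) = 0 ∧ L i s ≠ 0 then (1 : ℝ) else 0) ≤
          sn (q s) * (e s i * sn (L i s)) - sn (q (flip i s)) * (e s i * sn (L i s)) := by
      intro s
      have h4 := sn_sub (q s) (q (flip i s))
      have h5 : q s ≠ q (flip i s) ↔ L i s ≠ 0 := by
        rw [← sub_ne_zero, hq i hi]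
        have : e s i ≠ 0 := by
          intro h
          have := e_mul_self s i
          rw [h] at this
          norm_num at this
        constructor
        · intro h h'
          apply h
          rw [h']
          ring
        · intro h
          exact mul_ne_zero two_ne_zero (mul_ne_zero this h)
      have h6 : sn (q s - q (flip i s)) = e s i * sn (L i s) := by
        rw [hq i hi, ← sn_e_mul]
        rcases lt_trichotomy (e s i * L i s) 0 with h | h | h
        · rw [sn_neg h, sn_neg (by linarith)]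
        · rw [h, mul_zero]
        · rw [sn_pos h, sn_pos (by linarith)]
      simp only [h5] at h4
      rw [h6] at h4
      linarith
    have h4 := sum_le_sum fun s (_ : s ∈ (univ : Finset (ι → Bool))) => h3 s
    rw [sum_add_distrib, sum_sub_distrib, h1, h2] at h4
    linarith
  calc ∑ i ∈ J, ∑ s, (if q s = 0 ∧ L i s ≠ 0 then (1 : ℝ) else 0)
      ≤ ∑ i ∈ J, ∑ s, sn (q s) * (e s i * sn (L i s)) := sum_le_sum key
    _ = ∑ s, sn (q s) * ∑ i ∈ J, e s i * sn (L i s) := by
        rw [sum_comm]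
        exact sum_congr rfl fun s _ => (mul_sum _ _ _).symm
    _ ≤ ∑ s, |∑ i ∈ J, e s i * sn (L i s)| := by
        refine sum_le_sum fun s _ => ?_
        refine le_trans (le_abs_self _) ?_
        rw [abs_mul]
        calc _ ≤ 1 * |∑ i ∈ J, e s i * sn (L i s)| :=
              mul_le_mul_of_nonneg_right (abs_sn_le _) (abs_nonneg _)
          _ = _ := one_mul _

/-- the number of the points, as a real number -/
noncomputable def N (ι : Type) [Fintype ι] [DecidableEq ι] : ℝ := Fintype.card (ι → Bool)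

theorem N_pos : 0 < N ι := by
  unfold N
  exact_mod_cast Fintype.card_pos

theorem sum_abs_le (F : (ι → Bool) → ℝ) (b : ℝ) (hb : 0 ≤ b) (h : ∑ s, F s ^ 2 ≤ b * N ι) :
    ∑ s, |F s| ≤ Real.sqrt b * N ι := by
  have h1 : (∑ s, |F s|) ^ 2 ≤ N ι * ∑ s, |F s| ^ 2 := by
    have := sq_sum_le_card_mul_sum_sq (s := (univ : Finset (ι → Bool))) (f := fun s => |F s|)
    rw [card_univ] at this
    exact this
  simp only [sq_abs] at h1
  have h2 : (∑ s, |F s|) ^ 2 ≤ (Real.sqrt b * N ι) ^ 2 := by
    rw [mul_pow, Real.sq_sqrt hb]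
    calc (∑ s, |F s|) ^ 2 ≤ N ι * ∑ s, F s ^ 2 := h1
      _ ≤ N ι * (b * N ι) := mul_le_mul_of_nonneg_left h N_pos.le
      _ = b * N ι ^ 2 := by ring
  exact abs_le_of_sq_le_sq' h2 (mul_nonneg (Real.sqrt_nonneg _) N_pos.le) |>.2

/-- sums of squares with nonpositive cross terms -/
theorem sum_sq_le (J : Finset ι) (Y : ι → (ι → Bool) → ℝ) (hY : ∀ i ∈ J, ∀ s, |Y i s| ≤ 1)
    (b : ℝ) (h : ∀ i ∈ J, ∑ j ∈ J.erase i, ∑ s, Y i s * Y j s ≤ b * N ι) :
    ∑ s, (∑ i ∈ J, Y i s) ^ 2 ≤ (J.card * (1 + b)) * N ι := by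
  have h1 : ∑ s, (∑ i ∈ J, Y i s) ^ 2 = ∑ i ∈ J, ∑ j ∈ J, ∑ s, Y i s * Y j s := by
    have h2 : ∀ s, (∑ i ∈ J, Y i s) ^ 2 = ∑ i ∈ J, ∑ j ∈ J, Y i s * Y j s := by
      intro s
      rw [sq, sum_mul_sum]
    rw [sum_congr rfl fun s _ => h2 s, sum_comm]
    refine sum_congr rfl fun i _ => ?_
    rw [sum_comm]
  rw [h1]
  have h3 : ∀ i ∈ J, ∑ j ∈ J, ∑ s, Y i s * Y j s ≤ (1 + b) * N ι := by
    intro i hi
    rw [← add_sum_erase J _ hi]
    have h4 : ∑ s, Y i s * Y i s ≤ N ι := by
      calc ∑ s, Y i s * Y i s ≤ ∑ s : ι → Bool, (1 : ℝ) := by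
            refine sum_le_sum fun s _ => ?_
            have := hY i hi s
            rw [abs_le] at this
            nlinarith
        _ = N ι := by
            rw [sum_const, card_univ, nsmul_eq_mul, mul_one]
            rfl
    have h5 := h i hi
    linarith
  calc ∑ i ∈ J, ∑ j ∈ J, ∑ s, Y i s * Y j s ≤ ∑ i ∈ J, (1 + b) * N ι := sum_le_sum h3
    _ = _ := by
      rw [sum_const, nsmul_eq_mul]
      ring

theorem abs_e (s : ι → Bool) (i : ι) : |e s i| = 1 := by
  unfold e
  by_cases h : s i <;> simp [h]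

/-- the mean absolute value of a sum of signs -/
theorem sum_abs_signs (J : Finset ι) (a : ι → ℝ) (ha : ∀ i, |a i| ≤ 1) :
    ∑ s, |∑ j ∈ J, e s j * a j| ≤ Real.sqrt J.card * N ι := by
  refine sum_abs_le _ _ (Nat.cast_nonneg _) ?_
  have h := sum_sq_le J (fun j s => e s j * a j) (fun i _ s => by
    rw [abs_mul, abs_e, one_mul]
    exact ha i) 0 (fun i _ => by
      rw [zero_mul]
      refine (sum_eq_zero fun j hj => ?_).le
      refine sum_zero i _ fun s => ?_
      rw [e_flip, e_flip_ne (ne_of_mem_erase hj)]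
      ring)
  rw [add_zero, mul_one] at h
  exact h

end Pool.Agent.Y1.CO.Cube
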