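import Mathlib
import Pool.Agent.Y1.CO.Cube

/-!
# Zeros of quadratic functions on the cube: regular quadratic functions
-/

set_option autoImplicit false
set_option linter.unusedSectionVars false

namespace Pool.Agent.Y1.CO.Cube

open Finset

variable {ι : Type} [Fintype ι] [DecidableEq ι]

/-- the derivative in the direction `i` -/
noncomputable def lin (C : ι → ι → ℝ) (i : ι) (s : ι → Bool) : ℝ := ∑ j, C i j * e s j

theorem lin_flip (C : ι → ι → ℝ) (i j : ι) (s : ι → Bool) :
    lin C i s - lin C i (flip j s) = 2 * (C i j * e s j) := by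
  unfold lin
  rw [← sum_sub_distrib, sum_eq_single j]
  · rw [e_flip]
    ring
  · intro k _ hk
    rw [e_flip_ne hk, sub_self]
  · intro h
    exact absurd (mem_univ _) h

theorem lin_flip_self {C : ι → ι → ℝ} (h0 : ∀ i, C i i = 0) (i : ι) (s : ι → Bool) :
    lin C i (flip i s) = lin C i s := by
  have h := lin_flip C i i s
  rw [h0] at h
  linarith

theorem sn_mul_two (x : ℝ) : sn (2 * x) = sn x := by
  rcases lt_trichotomy x 0 with h | h | h
  · rw [sn_neg h, sn_neg (by linarith)]
  · rw [h, mul_zero]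
  · rw [sn_pos h, sn_pos (by linarith)]

theorem sn_sub_nonneg (a b : ℝ) : 0 ≤ (sn a - sn b) * sn (a - b) := by
  refine le_trans ?_ (sn_sub a b)
  split_ifs <;> norm_num

theorem sn_mul_self {x : ℝ} (h : x ≠ 0) : sn x * sn x = 1 := by
  rcases lt_trichotomy x 0 with h1 | h1 | h1
  · rw [sn_neg h1]; norm_num
  · exact absurd h1 h
  · rw [sn_pos h1]; norm_num

theorem cross (C : ι → ι → ℝ) (hC : ∀ i j, C i j = C j i) (h0 : ∀ i, C i i = 0) {i j : ι}
    (hij : i ≠ j) :
    ∑ s, (e s i * sn (lin C i s)) * (e s j * sn (lin C j s)) ≤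
      ∑ s, sn (lin C i s) * (e s j * sn (C i j)) := by
  let f : (ι → Bool) → ℝ := fun s => (e s i * sn (lin C i s)) * (e s j * sn (lin C j s))
  let r : (ι → Bool) → ℝ := fun s => sn (lin C i s) * (e s j * sn (C i j))
  show ∑ s, f s ≤ ∑ s, r s
  have h1 : ∑ s, f (flip i s) = ∑ s, f s := sum_flip i f
  have h2 : ∑ s, f (flip j s) = ∑ s, f s := sum_flip j f
  have h3 : ∑ s, f (flip i (flip j s)) = ∑ s, f s := by
    rw [sum_flip j (fun s => f (flip i s)), h1]
  have h4 : ∑ s, r (flip j s) = ∑ s, r s := sum_flip j r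
  have key : ∀ s, f s + f (flip i s) + f (flip j s) + f (flip i (flip j s)) ≤
      2 * (r s + r (flip j s)) := by
    intro s
    let Δ : ℝ := sn (lin C i s) - sn (lin C i (flip j s))
    let Δ' : ℝ := sn (lin C j s) - sn (lin C j (flip i s))
    have e1 : lin C i (flip i s) = lin C i s := lin_flip_self h0 i s
    have e2 : lin C j (flip j s) = lin C j s := lin_flip_self h0 j s
    have e3 : lin C i (flip i (flip j s)) = lin C i (flip j s) := lin_flip_self h0 i _
    have e4 : lin C j (flip i (flip j s)) = lin C j (flip i s) := by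
      rw [flip_comm, lin_flip_self h0 j]
    have f1 : f s + f (flip i s) + f (flip j s) + f (flip i (flip j s)) =
        (e s j * Δ) * (e s i * Δ') := by
      show (e s i * sn (lin C i s)) * (e s j * sn (lin C j s)) +
        (e (flip i s) i * sn (lin C i (flip i s))) * (e (flip i s) j * sn (lin C j (flip i s))) +
        (e (flip j s) i * sn (lin C i (flip j s))) * (e (flip j s) j * sn (lin C j (flip j s))) +
        (e (flip i (flip j s)) i * sn (lin C i (flip i (flip j s)))) *
          (e (flip i (flip j s)) j * sn (lin C j (flip i (flip j s)))) = _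
      rw [e1, e2, e3, e4, e_flip, e_flip_ne hij.symm, e_flip_ne hij, e_flip, e_flip,
        e_flip_ne hij, e_flip_ne hij.symm, e_flip]
      ring
    have f2 : r s + r (flip j s) = e s j * sn (C i j) * Δ := by
      show sn (lin C i s) * (e s j * sn (C i j)) +
        sn (lin C i (flip j s)) * (e (flip j s) j * sn (C i j)) = _
      rw [e_flip]
      ring
    rw [f1, f2]
    by_cases hc : C i j = 0
    · have h5 := lin_flip C i j s
      rw [hc, zero_mul, mul_zero, sub_eq_zero] at h5
      have h6 : Δ = 0 := by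
        show sn (lin C i s) - sn (lin C i (flip j s)) = 0
        rw [h5, sub_self]
      rw [h6]
      simp
    · have g1 : 0 ≤ e s j * sn (C i j) * Δ := by
        have := sn_sub_nonneg (lin C i s) (lin C i (flip j s))
        rw [lin_flip, sn_mul_two, mul_comm (C i j), sn_e_mul] at this
        calc (0 : ℝ) ≤ _ := this
          _ = _ := by ring
      have g2 : 0 ≤ e s i * sn (C i j) * Δ' := by
        have := sn_sub_nonneg (lin C j s) (lin C j (flip i s))
        rw [lin_flip, sn_mul_two, mul_comm (C j i), sn_e_mul, ← hC] at this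
        calc (0 : ℝ) ≤ _ := this
          _ = _ := by ring
      have g3 : e s i * sn (C i j) * Δ' ≤ 2 := by
        refine le_trans (le_abs_self _) ?_
        rw [abs_mul, abs_mul, abs_e, one_mul]
        have a1 := abs_sn_le (C i j)
        have a2 : |Δ'| ≤ 2 := by
          refine le_trans (abs_sub _ _) ?_
          have := abs_sn_le (lin C j s)
          have := abs_sn_le (lin C j (flip i s))
          linarith
        calc |sn (C i j)| * |Δ'| ≤ 1 * 2 := mul_le_mul a1 a2 (abs_nonneg _) zero_le_one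
          _ = 2 := by norm_num
      have g4 : (e s j * Δ) * (e s i * Δ') =
          (e s j * sn (C i j) * Δ) * (e s i * sn (C i j) * Δ') := by
        have := sn_mul_self hc
        linear_combination (-(e s j * Δ * (e s i * Δ'))) * this
      rw [g4]
      calc (e s j * sn (C i j) * Δ) * (e s i * sn (C i j) * Δ')
          ≤ (e s j * sn (C i j) * Δ) * 2 := mul_le_mul_of_nonneg_left g3 g1
        _ = _ := by ring
  have h5 := sum_le_sum fun s (_ : s ∈ (univ : Finset (ι → Bool))) => key s
  rw [← mul_sum, sum_add_distrib, sum_add_distrib, sum_add_distrib, sum_add_distrib, h1, h2, h3,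
    h4] at h5
  linarith

/-- the number of the zeros -/
noncomputable def zeros (q : (ι → Bool) → ℝ) : ℝ := ∑ s, if q s = 0 then (1 : ℝ) else 0

theorem zeros_nonneg (q : (ι → Bool) → ℝ) : 0 ≤ zeros q :=
  sum_nonneg fun s _ => by split_ifs <;> norm_num

/-- Littlewood-Offord -/
theorem zeros_lin (C : ι → ι → ℝ) (i : ι) (d : ℕ) (hd : 0 < d)
    (hdi : (univ.filter fun j => C i j ≠ 0).card = d) :
    zeros (lin C i) ≤ N ι / Real.sqrt d := by
  have h1 := influence (univ.filter fun j => C i j ≠ 0) (lin C i) (fun j _ => C i j)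
    (fun j _ s => by
      rw [lin_flip]
      ring) (fun _ _ _ => rfl)
  have h2 : ∑ j ∈ univ.filter (fun j => C i j ≠ 0),
      ∑ s, (if lin C i s = 0 ∧ C i j ≠ 0 then (1 : ℝ) else 0) = d * zeros (lin C i) := by
    have h3 : ∀ j ∈ univ.filter (fun j => C i j ≠ 0),
        ∑ s, (if lin C i s = 0 ∧ C i j ≠ 0 then (1 : ℝ) else 0) = zeros (lin C i) := by
      intro j hj
      have hj' := (mem_filter.1 hj).2
      refine sum_congr rfl fun s _ => ?_
      simp only [hj', ne_eq, not_false_eq_true, and_true]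
    rw [sum_congr rfl h3, sum_const, hdi, nsmul_eq_mul]
  have h3 := sum_abs_signs (univ.filter fun j => C i j ≠ 0) (fun j => sn (C i j))
    (fun j => abs_sn_le _)
  rw [hdi] at h3
  have h4 : (d : ℝ) * zeros (lin C i) ≤ Real.sqrt d * N ι := by
    rw [← h2]
    exact h1.trans h3
  have hd' : (0 : ℝ) < d := by exact_mod_cast hd
  have hs : 0 < Real.sqrt d := Real.sqrt_pos.2 hd'
  rw [le_div_iff₀ hs]
  have h5 : Real.sqrt d * Real.sqrt d = d := Real.mul_self_sqrt hd'.le
  have h6 : Real.sqrt d * (zeros (lin C i) * Real.sqrt d) ≤ Real.sqrt d * N ι := by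
    calc Real.sqrt d * (zeros (lin C i) * Real.sqrt d)
        = (Real.sqrt d * Real.sqrt d) * zeros (lin C i) := by ring
      _ = d * zeros (lin C i) := by rw [h5]
      _ ≤ _ := h4
  exact le_of_mul_le_mul_left h6 hs

/-- The influence of a quadratic function. -/
theorem infl_le (C : ι → ι → ℝ) (hC : ∀ i j, C i j = C j i) (h0 : ∀ i, C i i = 0)
    (q : (ι → Bool) → ℝ) (hq : ∀ i s, q s - q (flip i s) = 2 * (e s i * lin C i s))
    (J : Finset ι) (d : ℕ) (hd : ∀ i ∈ J, ((J.erase i).filter fun j => C i j ≠ 0).card ≤ d) :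
    ∑ i ∈ J, ∑ s, (if q s = 0 ∧ lin C i s ≠ 0 then (1 : ℝ) else 0) ≤
      Real.sqrt (J.card * (1 + Real.sqrt d)) * N ι := by
  refine (influence J q (lin C) (fun i _ s => hq i s)
    (fun i _ s => lin_flip_self h0 i s)).trans ?_
  refine sum_abs_le _ _ (by positivity) ?_
  refine sum_sq_le J (fun i s => e s i * sn (lin C i s)) (fun i _ s => ?_) _ (fun i hi => ?_)
  · rw [abs_mul, abs_e, one_mul]
    exact abs_sn_le _
  · have h1 : ∀ j ∈ J.erase i, ∑ s, e s i * sn (lin C i s) * (e s j * sn (lin C j s)) ≤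
        ∑ s, sn (lin C i s) * (e s j * sn (C i j)) := fun j hj =>
      cross C hC h0 (ne_of_mem_erase hj).symm
    refine (sum_le_sum h1).trans ?_
    have h2 : ∑ j ∈ J.erase i, ∑ s, sn (lin C i s) * (e s j * sn (C i j)) =
        ∑ s, sn (lin C i s) * ∑ j ∈ (J.erase i).filter (fun j => C i j ≠ 0),
          e s j * sn (C i j) := by
      rw [sum_comm]
      refine sum_congr rfl fun s _ => ?_
      rw [← mul_sum, sum_filter]
      congr 1
      refine sum_congr rfl fun j _ => ?_
      by_cases h : C i j = 0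
      · simp [h, sn_zero]
      · simp [h]
    rw [h2]
    have h3 : ∑ s, sn (lin C i s) * ∑ j ∈ (J.erase i).filter (fun j => C i j ≠ 0),
          e s j * sn (C i j) ≤
        ∑ s, |∑ j ∈ (J.erase i).filter (fun j => C i j ≠ 0), e s j * sn (C i j)| := by
      refine sum_le_sum fun s _ => ?_
      refine le_trans (le_abs_self _) ?_
      rw [abs_mul]
      exact (mul_le_mul_of_nonneg_right (abs_sn_le _) (abs_nonneg _)).trans (one_mul _).le
    refine h3.trans ((sum_abs_signs _ _ fun j => abs_sn_le _).trans ?_)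
    refine mul_le_mul_of_nonneg_right ?_ N_pos.le
    exact Real.sqrt_le_sqrt (by exact_mod_cast hd i hi)

/-- first bound: large degree -/
theorem boundA (C : ι → ι → ℝ) (hC : ∀ i j, C i j = C j i) (h0 : ∀ i, C i i = 0)
    (q : (ι → Bool) → ℝ) (hq : ∀ i s, q s - q (flip i s) = 2 * (e s i * lin C i s))
    (d : ℕ) (hd : 0 < d) (hdeg : ∀ i, (univ.filter fun j => C i j ≠ 0).card = d) :
    Fintype.card ι * zeros q ≤ Fintype.card ι * (N ι / Real.sqrt d) +
      Real.sqrt (Fintype.card ι * (1 + Real.sqrt d)) * N ι := by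
  have h1 := infl_le C hC h0 q hq univ d (fun i _ => by
    rw [← hdeg i]
    exact card_le_card (filter_subset_filter _ (erase_subset _ _)))
  rw [card_univ] at h1
  have h2 : ∑ i : ι, zeros (lin C i) ≤ Fintype.card ι * (N ι / Real.sqrt d) := by
    calc ∑ i : ι, zeros (lin C i) ≤ ∑ i : ι, N ι / Real.sqrt d :=
          sum_le_sum fun i _ => zeros_lin C i d hd (hdeg i)
      _ = _ := by rw [sum_const, card_univ, nsmul_eq_mul]
  have h3 : Fintype.card ι * zeros q ≤ ∑ i : ι, zeros (lin C i) +
      ∑ i : ι, ∑ s, (if q s = 0 ∧ lin C i s ≠ 0 then (1 : ℝ) else 0) := by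
    rw [← sum_add_distrib]
    calc (Fintype.card ι : ℝ) * zeros q = ∑ i : ι, zeros q := by
          rw [sum_const, card_univ, nsmul_eq_mul]
      _ ≤ _ := by
        refine sum_le_sum fun i _ => ?_
        unfold zeros
        rw [← sum_add_distrib]
        refine sum_le_sum fun s _ => ?_
        by_cases a : q s = 0 <;> by_cases b : lin C i s = 0 <;> simp [a, b]
  linarith

/-- second bound: a set of indices with private neighbours -/
theorem boundB (C : ι → ι → ℝ) (hC : ∀ i j, C i j = C j i) (h0 : ∀ i, C i i = 0)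
    (q : (ι → Bool) → ℝ) (hq : ∀ i s, q s - q (flip i s) = 2 * (e s i * lin C i s))
    (J : Finset ι) (nb : ι → ι) (hnb : ∀ i ∈ J, C i (nb i) ≠ 0)
    (hJ : ∀ i ∈ J, ∀ j ∈ J, i ≠ j → C i j = 0)
    (hJ2 : ∀ i ∈ J, ∀ j ∈ J, i ≠ j → C j (nb i) = 0) :
    J.card * zeros q ≤ 3 * (Real.sqrt J.card * N ι) := by
  have h1 := infl_le C hC h0 q hq J 0 (fun i hi => by
    rw [Nat.le_zero, card_eq_zero, filter_eq_empty_iff]
    intro j hj
    rw [not_not]
    exact hJ i hi j (mem_of_mem_erase hj) (ne_of_mem_erase hj).symm)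
  rw [Nat.cast_zero, Real.sqrt_zero, add_zero, mul_one] at h1
  -- the signs which decide whether `lin C i s` can be zero
  let Y : ι → (ι → Bool) → ℝ := fun i s =>
    e s (nb i) * (if 0 ≤ (lin C i s - C i (nb i) * e s (nb i)) * C i (nb i) then 1 else -1)
  have hYabs : ∀ i s, |Y i s| ≤ 1 := by
    intro i s
    show |e s (nb i) * _| ≤ 1
    rw [abs_mul, abs_e, one_mul]
    split_ifs <;> simp
  have hYz : ∀ i ∈ J, ∀ s, lin C i s = 0 → Y i s = -1 := by
    intro i hi s h
    show e s (nb i) * (if 0 ≤ (lin C i s - C i (nb i) * e s (nb i)) * C i (nb i) then (1 : ℝ)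
      else -1) = -1
    rw [h]
    have h2 : 0 < C i (nb i) * C i (nb i) := mul_self_pos.2 (hnb i hi)
    unfold e
    by_cases h3 : s (nb i)
    · rw [if_pos h3, if_neg (by push Not; linarith)]
      norm_num
    · rw [if_neg h3, if_pos (by linarith)]
      norm_num
  have hYflip : ∀ i ∈ J, ∀ s, Y i (flip (nb i) s) = - Y i s := by
    intro i _ s
    show e (flip (nb i) s) (nb i) * (if 0 ≤ (lin C i (flip (nb i) s) -
      C i (nb i) * e (flip (nb i) s) (nb i)) * C i (nb i) then (1 : ℝ) else -1) = - (_ * _)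
    have h2 := lin_flip C i (nb i) s
    have h3 : lin C i (flip (nb i) s) - C i (nb i) * e (flip (nb i) s) (nb i) =
        lin C i s - C i (nb i) * e s (nb i) := by
      rw [e_flip]
      linarith
    rw [h3, e_flip]
    ring
  have hYflip2 : ∀ i ∈ J, ∀ j ∈ J, i ≠ j → ∀ s, Y j (flip (nb i) s) = Y j s := by
    intro i hi j hj hij s
    have h2 : C j (nb i) = 0 := hJ2 i hi j hj hij
    have h3 : nb i ≠ nb j := by
      intro h
      rw [h] at h2
      exact hnb j hj h2
    have h4 := lin_flip C j (nb i) s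
    rw [h2, zero_mul, mul_zero, sub_eq_zero] at h4
    show e (flip (nb i) s) (nb j) * (if 0 ≤ (lin C j (flip (nb i) s) -
      C j (nb j) * e (flip (nb i) s) (nb j)) * C j (nb j) then (1 : ℝ) else -1) = _
    rw [e_flip_ne h3.symm, ← h4]
  have h2 : ∑ s, |∑ i ∈ J, Y i s| ≤ Real.sqrt J.card * N ι := by
    refine sum_abs_le _ _ (Nat.cast_nonneg _) ?_
    have h := sum_sq_le J Y (fun i _ s => hYabs i s) 0 (fun i hi => by
      rw [zero_mul]
      refine (sum_eq_zero fun j hj => ?_).le
      refine sum_zero (nb i) _ fun s => ?_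
      rw [hYflip i hi, hYflip2 i hi j (mem_of_mem_erase hj) (ne_of_mem_erase hj).symm]
      ring)
    rw [add_zero, mul_one] at h
    exact h
  have h3 : ∑ i ∈ J, ∑ s, (if q s = 0 ∧ lin C i s = 0 then (1 : ℝ) else 0) ≤
      J.card * zeros q / 2 + (Real.sqrt J.card * N ι) / 2 := by
    have h4 : ∀ s, ∑ i ∈ J, (if q s = 0 ∧ lin C i s = 0 then (1 : ℝ) else 0) ≤
        (J.card * (if q s = 0 then (1 : ℝ) else 0)) / 2 + |∑ i ∈ J, Y i s| / 2 := by
      intro s
      by_cases hs : q s = 0
      · rw [if_pos hs, mul_one]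
        have h5 : ∀ i ∈ J, (if q s = 0 ∧ lin C i s = 0 then (1 : ℝ) else 0) ≤
            (1 - Y i s) / 2 := by
          intro i hi
          by_cases h6 : lin C i s = 0
          · rw [if_pos ⟨hs, h6⟩, hYz i hi s h6]
            norm_num
          · rw [if_neg fun h => h6 h.2]
            have := (abs_le.1 (hYabs i s)).2
            linarith
        refine (sum_le_sum h5).trans ?_
        rw [← sum_div, sum_sub_distrib, sum_const, nsmul_eq_mul, mul_one]
        have := neg_abs_le (∑ i ∈ J, Y i s)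
        linarith
      · rw [if_neg hs, mul_zero, zero_div, zero_add]
        refine le_trans (sum_eq_zero fun i _ => ?_).le (by positivity)
        rw [if_neg fun h => hs h.1]
    rw [sum_comm]
    refine (sum_le_sum fun s _ => h4 s).trans ?_
    rw [sum_add_distrib, ← sum_div, ← sum_div, ← mul_sum]
    have h5 : ∑ s, (if q s = 0 then (1 : ℝ) else 0) = zeros q := rfl
    rw [h5]
    linarith
  have h4 : J.card * zeros q = ∑ i ∈ J, ∑ s, (if q s = 0 ∧ lin C i s = 0 then (1 : ℝ) else 0) +
      ∑ i ∈ J, ∑ s, (if q s = 0 ∧ lin C i s ≠ 0 then (1 : ℝ) else 0) := by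
    rw [← sum_add_distrib]
    have h5 : ∀ i ∈ J, ∑ s, (if q s = 0 ∧ lin C i s = 0 then (1 : ℝ) else 0) +
        ∑ s, (if q s = 0 ∧ lin C i s ≠ 0 then (1 : ℝ) else 0) = zeros q := by
      intro i _
      unfold zeros
      rw [← sum_add_distrib]
      refine sum_congr rfl fun s _ => ?_
      by_cases a : q s = 0 <;> by_cases b : lin C i s = 0 <;> simp [a, b]
    rw [sum_congr rfl h5, sum_const, nsmul_eq_mul]
  linarith

end Pool.Agent.Y1.CO.Cube
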