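import Mathlib
import Pool.Agent.Y1.CO.CubeQ

/-!
# Zeros of quadratic functions on the cube: the final bound
-/

set_option autoImplicit false
set_option linter.unusedSectionVars false

namespace Pool.Agent.Y1.CO.Cube

open Finset

variable {ι : Type} [Fintype ι] [DecidableEq ι]

/-- a large set of indices which are not adjacent and have private neighbours -/
theorem exists_spread (C : ι → ι → ℝ) (hC : ∀ i j, C i j = C j i) (d : ℕ) (hd : 0 < d)
    (hdeg : ∀ i, (univ.filter fun j => C i j ≠ 0).card = d) :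
    ∃ (J : Finset ι) (nb : ι → ι), (∀ i ∈ J, C i (nb i) ≠ 0) ∧
      (∀ i ∈ J, ∀ j ∈ J, i ≠ j → C i j = 0) ∧
      (∀ i ∈ J, ∀ j ∈ J, i ≠ j → C j (nb i) = 0) ∧
      Fintype.card ι ≤ J.card * (1 + 3 * d) := by
  classical
  let E : Finset (ι × ι) := univ.filter fun p => C p.1 p.2 ≠ 0
  have hE : ∀ p, p ∈ E ↔ C p.1 p.2 ≠ 0 := fun p => by simp [E]
  let P : Finset (ι × ι) → Prop := fun T => (∀ p ∈ T, C p.1 p.2 ≠ 0) ∧ ∀ p ∈ T, ∀ q ∈ T, p ≠ q →
    p.1 ≠ q.1 ∧ C p.1 q.1 = 0 ∧ C q.1 p.2 = 0
  obtain ⟨T, hT, hmax⟩ := exists_max_image (univ.filter P) (fun T => T.card)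
    ⟨∅, mem_filter.2 ⟨mem_univ _, fun i hi => absurd hi (notMem_empty i),
      fun i hi => absurd hi (notMem_empty i)⟩⟩
  have hPT : P T := (mem_filter.1 hT).2
  let Nb : ι → Finset ι := fun i => univ.filter fun j => C i j ≠ 0
  have hNb : ∀ i j, j ∈ Nb i ↔ C i j ≠ 0 := fun i j => by simp [Nb]
  let S : ι × ι → Finset (ι × ι) := fun p =>
    (({p.1} : Finset ι).biUnion fun a => (Nb a).image fun b => (a, b)) ∪
      ((Nb p.1).biUnion fun a => (Nb a).image fun b => (a, b)) ∪
      (((Nb p.2).biUnion fun a => (Nb a).image fun b => (a, b)) ∪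
        ((Nb p.1).biUnion fun b => (Nb b).image fun a => (a, b)))
  have hcov : E ⊆ T.biUnion S := by
    intro k hk
    have hk' := (hE k).1 hk
    rw [mem_biUnion]
    have hm1 : ∀ (A : Finset ι), k.1 ∈ A →
        k ∈ A.biUnion fun a => (Nb a).image fun b => (a, b) := by
      intro A hA
      exact mem_biUnion.2 ⟨k.1, hA, mem_image.2 ⟨k.2, (hNb _ _).2 hk', rfl⟩⟩
    have hm2 : ∀ (A : Finset ι), k.2 ∈ A →
        k ∈ A.biUnion fun b => (Nb b).image fun a => (a, b) := by
      intro A hA
      refine mem_biUnion.2 ⟨k.2, hA, mem_image.2 ⟨k.1, (hNb _ _).2 ?_, rfl⟩⟩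
      rw [hC]
      exact hk'
    by_cases hkT : k ∈ T
    · exact ⟨k, hkT, mem_union_left _ (mem_union_left _ (hm1 _ (mem_singleton_self _)))⟩
    · have hex : ∃ p ∈ T, ¬ (k.1 ≠ p.1 ∧ C k.1 p.1 = 0 ∧ C p.1 k.2 = 0 ∧ C k.1 p.2 = 0) := by
        by_contra hno
        push Not at hno
        have h1 : P (insert k T) := by
          constructor
          · intro p hp
            rw [mem_insert] at hp
            rcases hp with rfl | hp
            · exact hk'
            · exact hPT.1 p hp
          · intro p hp q hq hpq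
            rw [mem_insert] at hp hq
            rcases hp with rfl | hp
            · rcases hq with rfl | hq
              · exact absurd rfl hpq
              · obtain ⟨a1, a2, a3, a4⟩ := hno q hq
                exact ⟨a1, a2, a3⟩
            · rcases hq with rfl | hq
              · obtain ⟨a1, a2, a3, a4⟩ := hno p hp
                refine ⟨a1.symm, ?_, a4⟩
                rw [hC]
                exact a2
              · exact hPT.2 p hp q hq hpq
        have h2 := hmax _ (mem_filter.2 ⟨mem_univ _, h1⟩)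
        rw [card_insert_of_notMem hkT] at h2
        omega
      obtain ⟨p, hp, hne⟩ := hex
      refine ⟨p, hp, ?_⟩
      by_cases h1 : k.1 = p.1
      · refine mem_union_left _ (mem_union_left _ (hm1 _ ?_))
        rw [h1]
        exact mem_singleton_self _
      · by_cases h2 : C k.1 p.1 = 0
        · by_cases h3 : C p.1 k.2 = 0
          · have h4 : C k.1 p.2 ≠ 0 := fun h4 => hne ⟨h1, h2, h3, h4⟩
            refine mem_union_right _ (mem_union_left _ (hm1 _ ((hNb _ _).2 ?_)))
            rw [hC]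
            exact h4
          · exact mem_union_right _ (mem_union_right _ (hm2 _ ((hNb _ _).2 h3)))
        · refine mem_union_left _ (mem_union_right _ (hm1 _ ((hNb _ _).2 ?_)))
          rw [hC]
          exact h2
  have hb1 : ∀ (A : Finset ι), (A.biUnion fun a => (Nb a).image fun b => (a, b)).card ≤
      A.card * d := fun A => card_biUnion_le_card_mul _ _ _ fun a _ =>
    card_image_le.trans (hdeg a).le
  have hb2 : ∀ (A : Finset ι), (A.biUnion fun b => (Nb b).image fun a => (a, b)).card ≤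
      A.card * d := fun A => card_biUnion_le_card_mul _ _ _ fun a _ =>
    card_image_le.trans (hdeg a).le
  have hS : ∀ p, (S p).card ≤ (1 + 3 * d) * d := by
    intro p
    have c1 := hb1 {p.1}
    have c2 := hb1 (Nb p.1)
    have c3 := hb1 (Nb p.2)
    have c4 := hb2 (Nb p.1)
    rw [card_singleton] at c1
    rw [show (Nb p.1).card = d from hdeg _] at c2 c4
    rw [show (Nb p.2).card = d from hdeg _] at c3
    calc (S p).card ≤ _ + _ := card_union_le _ _
      _ ≤ (_ + _) + (_ + _) := Nat.add_le_add (card_union_le _ _) (card_union_le _ _)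
      _ ≤ (1 * d + d * d) + (d * d + d * d) :=
          Nat.add_le_add (Nat.add_le_add c1 c2) (Nat.add_le_add c3 c4)
      _ = (1 + 3 * d) * d := by ring
  have hEc : E.card = Fintype.card ι * d := by
    have h1 : E = univ.biUnion fun a => (Nb a).image fun b => (a, b) := by
      ext k
      rw [mem_biUnion, hE]
      constructor
      · intro h
        exact ⟨k.1, mem_univ _, mem_image.2 ⟨k.2, (hNb _ _).2 h, rfl⟩⟩
      · rintro ⟨a, -, ha⟩
        obtain ⟨b, hb, rfl⟩ := mem_image.1 ha
        exact (hNb _ _).1 hb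
    rw [h1, card_biUnion]
    · have h2 : ∀ a ∈ (univ : Finset ι), ((Nb a).image fun b => (a, b)).card = d := by
        intro a _
        rw [card_image_of_injective _ (fun x y h => (Prod.mk.inj h).2)]
        exact hdeg a
      rw [sum_congr rfl h2, sum_const, card_univ, smul_eq_mul]
    · intro a _ b _ hab
      rw [Function.onFun, disjoint_left]
      intro k hk hk'
      obtain ⟨x, -, rfl⟩ := mem_image.1 hk
      obtain ⟨y, -, hy⟩ := mem_image.1 hk'
      exact hab (Prod.mk.inj hy).1.symm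
  have hTn : Fintype.card ι ≤ T.card * (1 + 3 * d) := by
    have h1 := (card_le_card hcov).trans (card_biUnion_le_card_mul _ _ _ fun p _ => hS p)
    rw [hEc] at h1
    refine Nat.le_of_mul_le_mul_right ?_ hd
    calc Fintype.card ι * d ≤ T.card * ((1 + 3 * d) * d) := h1
      _ = T.card * (1 + 3 * d) * d := by ring
  have hinj : Set.InjOn Prod.fst (T : Set (ι × ι)) := by
    intro p hp q hq h
    by_contra hne
    exact (hPT.2 p hp q hq hne).1 h
  have hTJ : (T.image Prod.fst).card = T.card := card_image_of_injOn hinj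
  have hnb : ∀ i, ∃ b, i ∈ T.image Prod.fst → (i, b) ∈ T := by
    intro i
    by_cases h : i ∈ T.image Prod.fst
    · obtain ⟨p, hp, rfl⟩ := mem_image.1 h
      exact ⟨p.2, fun _ => hp⟩
    · exact ⟨i, fun h' => absurd h' h⟩
  choose nb hnb using hnb
  refine ⟨T.image Prod.fst, nb, fun i hi => hPT.1 _ (hnb i hi), fun i hi j hj hij => ?_,
    fun i hi j hj hij => ?_, by rw [hTJ]; exact hTn⟩
  · exact (hPT.2 _ (hnb i hi) _ (hnb j hj) fun h => hij (Prod.mk.inj h).1).2.1
  · exact (hPT.2 _ (hnb i hi) _ (hnb j hj) fun h => hij (Prod.mk.inj h).1).2.2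

/-- **A regular quadratic function has few zeros.** -/
theorem zeros_quad [Nonempty ι] (C : ι → ι → ℝ) (hC : ∀ i j, C i j = C j i)
    (h0 : ∀ i, C i i = 0)
    (q : (ι → Bool) → ℝ) (hq : ∀ i s, q s - q (flip i s) = 2 * (e s i * lin C i s))
    (d : ℕ) (hd : 0 < d) (hdeg : ∀ i, (univ.filter fun j => C i j ≠ 0).card = d) :
    zeros q * (Fintype.card ι : ℝ) ^ (1 / 4 : ℝ) ≤ 6 * N ι := by
  have hn : (0 : ℝ) < Fintype.card ι := by exact_mod_cast Fintype.card_pos
  have hn1 : (1 : ℝ) ≤ Fintype.card ι := by exact_mod_cast Fintype.card_pos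
  obtain ⟨t, ht⟩ : ∃ t : ℝ, t = (Fintype.card ι : ℝ) ^ (1 / 4 : ℝ) := ⟨_, rfl⟩
  rw [← ht]
  have ht1 : 1 ≤ t := by
    rw [ht]
    exact Real.one_le_rpow hn1 (by norm_num)
  have ht0 : 0 < t := by linarith
  have ht4 : t ^ 4 = Fintype.card ι := by
    rw [ht, ← Real.rpow_natCast, ← Real.rpow_mul hn.le]
    norm_num
  have hN : 0 < N ι := N_pos
  have hz : 0 ≤ zeros q := zeros_nonneg q
  have hdR : (1 : ℝ) ≤ d := by exact_mod_cast hd
  obtain ⟨i₀⟩ := (inferInstance : Nonempty ι)
  have hdn : (d : ℝ) ≤ t ^ 4 := by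
    rw [ht4]
    have : d ≤ Fintype.card ι := by
      rw [← hdeg i₀, ← card_univ]
      exact card_le_card (filter_subset _ _)
    exact_mod_cast this
  by_cases hcase : t ^ 2 ≤ d
  · have hA := boundA C hC h0 q hq d hd hdeg
    rw [← ht4] at hA
    have hs : t ≤ Real.sqrt d := by
      rw [show t = Real.sqrt (t ^ 2) from (Real.sqrt_sq ht0.le).symm]
      exact Real.sqrt_le_sqrt hcase
    have hs0 : 0 < Real.sqrt d := lt_of_lt_of_le ht0 hs
    have h1 : N ι / Real.sqrt d ≤ N ι / t := div_le_div_of_nonneg_left hN.le ht0 hs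
    have h2 : Real.sqrt d ≤ t ^ 2 := by
      rw [show t ^ 2 = Real.sqrt ((t ^ 2) ^ 2) from (Real.sqrt_sq (by positivity)).symm]
      refine Real.sqrt_le_sqrt ?_
      calc (d : ℝ) ≤ t ^ 4 := hdn
        _ = (t ^ 2) ^ 2 := by ring
    have h3 : Real.sqrt (t ^ 4 * (1 + Real.sqrt d)) ≤ 2 * t ^ 3 := by
      rw [show 2 * t ^ 3 = Real.sqrt ((2 * t ^ 3) ^ 2) from (Real.sqrt_sq (by positivity)).symm]
      refine Real.sqrt_le_sqrt ?_
      have h4 : 1 + Real.sqrt d ≤ 2 * t ^ 2 := by
        have : 1 ≤ t ^ 2 := one_le_pow₀ ht1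
        linarith
      calc t ^ 4 * (1 + Real.sqrt d) ≤ t ^ 4 * (2 * t ^ 2) :=
            mul_le_mul_of_nonneg_left h4 (by positivity)
        _ = 2 * t ^ 6 := by ring
        _ ≤ 4 * t ^ 6 := by
            have h6 : 0 ≤ t ^ 6 := by positivity
            linarith
        _ = (2 * t ^ 3) ^ 2 := by ring
    have h4 : t ^ 4 * zeros q ≤ t ^ 4 * (N ι / t) + 2 * t ^ 3 * N ι := by
      refine hA.trans (add_le_add (mul_le_mul_of_nonneg_left h1 (by positivity)) ?_)
      exact mul_le_mul_of_nonneg_right h3 hN.le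
    have h5 : t ^ 4 * (N ι / t) = t ^ 3 * N ι := by
      field_simp
    rw [h5] at h4
    have h6 : t ^ 3 * (zeros q * t) ≤ t ^ 3 * (3 * N ι) := by
      calc t ^ 3 * (zeros q * t) = t ^ 4 * zeros q := by ring
        _ ≤ t ^ 3 * N ι + 2 * t ^ 3 * N ι := h4
        _ = _ := by ring
    have h7 := le_of_mul_le_mul_left h6 (by positivity)
    linarith
  · push Not at hcase
    obtain ⟨J, nb, hnb, hJ1, hJ2, hJn⟩ := exists_spread C hC d hd hdeg
    have hB := boundB C hC h0 q hq J nb hnb hJ1 hJ2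
    have hJR : t ^ 4 ≤ (J.card : ℝ) * (1 + 3 * d) := by
      rw [ht4]
      exact_mod_cast hJn
    have h1 : (1 + 3 * d : ℝ) ≤ 4 * t ^ 2 := by linarith
    have h2 : t ^ 2 ≤ 4 * J.card := by
      have h3 : t ^ 2 * t ^ 2 ≤ t ^ 2 * (4 * J.card) := by
        calc t ^ 2 * t ^ 2 = t ^ 4 := by ring
          _ ≤ (J.card : ℝ) * (1 + 3 * d) := hJR
          _ ≤ (J.card : ℝ) * (4 * t ^ 2) := mul_le_mul_of_nonneg_left h1 (Nat.cast_nonneg _)
          _ = _ := by ring
      exact le_of_mul_le_mul_left h3 (by positivity)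
    have hM : (0 : ℝ) < J.card := by
      have : 0 < t ^ 2 := by positivity
      linarith
    have hs : 0 < Real.sqrt J.card := Real.sqrt_pos.2 hM
    have hss : Real.sqrt J.card * Real.sqrt J.card = J.card := Real.mul_self_sqrt hM.le
    have h3 : Real.sqrt J.card * zeros q ≤ 3 * N ι := by
      have h4 : Real.sqrt J.card * (Real.sqrt J.card * zeros q) ≤
          Real.sqrt J.card * (3 * N ι) := by
        calc Real.sqrt J.card * (Real.sqrt J.card * zeros q)
            = (Real.sqrt J.card * Real.sqrt J.card) * zeros q := by ring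
          _ = J.card * zeros q := by rw [hss]
          _ ≤ 3 * (Real.sqrt J.card * N ι) := hB
          _ = _ := by ring
      exact le_of_mul_le_mul_left h4 hs
    have h4 : t ≤ 2 * Real.sqrt J.card := by
      have h5 : t ^ 2 ≤ (2 * Real.sqrt J.card) ^ 2 := by
        calc t ^ 2 ≤ 4 * J.card := h2
          _ = 4 * (Real.sqrt J.card * Real.sqrt J.card) := by rw [hss]
          _ = (2 * Real.sqrt J.card) ^ 2 := by ring
      exact abs_le_of_sq_le_sq' h5 (by positivity) |>.2
    calc zeros q * t ≤ zeros q * (2 * Real.sqrt J.card) := mul_le_mul_of_nonneg_left h4 hz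
      _ = 2 * (Real.sqrt J.card * zeros q) := by ring
      _ ≤ 2 * (3 * N ι) := by linarith
      _ = 6 * N ι := by ring

end Pool.Agent.Y1.CO.Cube
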