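import Mathlib
import Pool.Agent.Y144.CZ.Fin

/-!
# Colmez's product formula for the CM types of one CM field: definitions

`G` is the Galois group of a CM field `K`, Galois over `ℚ`; `c` is complex conjugation. A CM field
`E ⊆ K` is given by the subgroup `H` that fixes it; the embeddings of `E` are the cosets of `H`.
-/

set_option autoImplicit false

namespace Pool.Agent.Y1.CO

open Pool.Agent.Y144.CZ

variable {G : Type} [Group G] [Fintype G] {c : G}

/-- Colmez's product formula for the datum `d = (E, ψ, Φ)`: `ht(E,ψ,Φ) = Z((a⁰_{E,ψ,Φ})^*)`. -/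
def ProductFormula (ht : Datum G c → ℝ) (Z : (G → ℚ) →ₗ[ℚ] ℝ) (d : Datum G c) : Prop :=
  ht d = Z (fun g => a0 d g⁻¹)

/-- The sum of the product formulas over the embeddings in the CM type `Φ` (the formula for the
Faltings height of the abelian varieties of type `Φ`). -/
def SumFormula (ht : Datum G c → ℝ) (Z : (G → ℚ) →ₗ[ℚ] ℝ) {H : Subgroup G} (Φ : CMType c H) : Prop :=
  ∑ ψ ∈ Φ.1, ht ⟨H, ψ, Φ.1, Φ.2⟩ =
    ∑ ψ ∈ Φ.1, Z (fun g => a0 (⟨H, ψ, Φ.1, Φ.2⟩ : Datum G c) g⁻¹)

noncomputable instance embFintype {G : Type} [Group G] [Finite G] (H : Subgroup G) :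
    Fintype (G ⧸ H) := Fintype.ofFinite _

open Classical in
/-- The CM type `Φ` of the field `E` fixed by `H` is nondegenerate: a function `u` on the embeddings
of `E` which changes its sign under complex conjugation is zero if its sums over all translates of
`Φ` are zero. -/
def Nondegenerate (c : G) {H : Subgroup G} (Φ : CMType c H) : Prop :=
  ∀ u : G ⧸ H → ℚ, (∀ x, u (c • x) = - u x) →
    (∀ γ : G, ∑ x ∈ Finset.univ.filter (fun x : G ⧸ H => γ • x ∈ Φ.1), u x = 0) → u = 0

end Pool.Agent.Y1.CO
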