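import Mathlib

/-!
# Stable spaces of odd functions on a transitive set
-/

set_option autoImplicit false

namespace Pool.Agent.Y1.CO

open Finset

variable {G X : Type} [Group G] [MulAction G X] [Fintype X] [MulAction.IsPretransitive G X]

/-- A nonzero stable space contains a function without zeros. -/
theorem exists_full (S : Submodule ℚ (X → ℚ)) (hS : ∀ (γ : G), ∀ u ∈ S, (fun x => u (γ • x)) ∈ S)
    (h0 : S ≠ ⊥) : ∃ s ∈ S, ∀ x, s x ≠ 0 := by
  classical
  obtain ⟨u, hu, hu0⟩ := (Submodule.ne_bot_iff _).1 h0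
  obtain ⟨x₀, hx₀⟩ : ∃ x, u x ≠ 0 := by
    by_contra hall
    push Not at hall
    exact hu0 (funext hall)
  by_contra hno
  push Not at hno
  let p : X → Submodule ℚ S := fun x => LinearMap.ker ((LinearMap.proj x).domRestrict S)
  have hcov : ⋃ x, (p x : Set S) = Set.univ := by
    ext s
    simp only [Set.mem_iUnion, Set.mem_univ, iff_true]
    obtain ⟨x, hx⟩ := hno s.1 s.2
    exact ⟨x, hx⟩
  obtain ⟨x, hx⟩ := Subspace.exists_eq_top_of_iUnion_eq_univ hcov
  obtain ⟨γ, hγ⟩ := MulAction.exists_smul_eq G x x₀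
  have h1 : (⟨fun y => u (γ • y), hS γ u hu⟩ : S) ∈ p x := by
    rw [hx]
    exact Submodule.mem_top
  have h2 : u (γ • x) = 0 := h1
  rw [hγ] at h2
  exact hx₀ h2

open Classical in
/-- The number of half systems on which an odd function without zeros has a vanishing sum. -/
theorem card_half_le {c : X → X} (hcc : ∀ x, c (c x) = x) {g : ℕ} (hg : Fintype.card X = 2 * g)
    (s : X → ℚ) (hodd : ∀ x, s (c x) = - s x) (hs : ∀ x, s x ≠ 0) (𝒯 : Finset (Finset X))
    (h𝒯 : ∀ Φ ∈ 𝒯, (∀ x, c x ∈ Φ ↔ x ∉ Φ) ∧ ∑ x ∈ Φ, s x = 0) : 𝒯.card ≤ g.choose (g / 2) := by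
  let T : Finset X := univ.filter (fun x => 0 < s x)
  have hT : ∀ x, x ∈ T ↔ 0 < s x := fun x => by simp [T]
  have hTc : ∀ x, c x ∈ T ↔ x ∉ T := by
    intro x
    rw [hT, hT, hodd, not_lt]
    constructor
    · intro h
      linarith
    · intro h
      have := lt_of_le_of_ne h (hs x)
      linarith
  have hcard : T.card = g := by
    have h1 : (univ \ T : Finset X) = T.image c := by
      ext x
      rw [mem_sdiff, mem_image]
      constructor
      · rintro ⟨-, hx⟩
        exact ⟨c x, (hTc x).2 hx, hcc x⟩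
      · rintro ⟨y, hy, rfl⟩
        refine ⟨mem_univ _, fun h => ?_⟩
        exact (hTc y).1 h hy
    have h2 : (T.image c).card = T.card := card_image_of_injective _ (fun x y h => by
      rw [← hcc x, h, hcc])
    have h3 := card_sdiff_add_card_eq_card (subset_univ T)
    rw [h1, h2, card_univ, hg] at h3
    omega
  let A : Finset X → Finset T := fun Φ => univ.filter (fun x : T => x.1 ∈ Φ)
  have hA : ∀ Φ, ∑ x ∈ A Φ, s x.1 = ∑ x ∈ T, (if x ∈ Φ then s x else 0) := by
    intro Φ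
    rw [← Finset.sum_coe_sort T (fun x => if x ∈ Φ then s x else 0), ← Finset.sum_filter]
  have hval : ∀ Φ ∈ 𝒯, 2 * ∑ x ∈ A Φ, s x.1 = ∑ x ∈ T, s x := by
    intro Φ hΦ
    obtain ⟨h1, h2⟩ := h𝒯 Φ hΦ
    -- the sum over `Φ` is the sum over `T ∩ Φ` minus the sum over `T \ Φ`
    have h3 : ∑ x ∈ Φ, s x = ∑ x ∈ T, (if x ∈ Φ then s x else - s x) := by
      have h4 : ∑ x ∈ Φ, s x = ∑ x, (if x ∈ Φ then s x else 0) := by
        rw [← Finset.sum_filter]
        congr 1
        ext x
        simp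
      have h5 : ∑ x, (if x ∈ Φ then s x else 0) = ∑ x ∈ T, (if x ∈ Φ then s x else 0) +
          ∑ x ∈ univ \ T, (if x ∈ Φ then s x else 0) := by
        rw [add_comm, sum_sdiff (subset_univ T)]
      have h6 : ∑ x ∈ univ \ T, (if x ∈ Φ then s x else 0) =
          ∑ x ∈ T, (if x ∈ Φ then 0 else - s x) := by
        refine (sum_nbij' c c ?_ ?_ ?_ ?_ ?_).symm
        · intro x hx
          rw [mem_sdiff]
          exact ⟨mem_univ _, fun h => (hTc x).1 h hx⟩
        · intro x hx
          rw [mem_sdiff] at hx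
          exact (hTc x).2 hx.2
        · intro x _
          exact hcc x
        · intro x _
          exact hcc x
        · intro x _
          by_cases hx : x ∈ Φ
          · rw [if_pos hx, if_neg (by rw [h1]; exact not_not.2 hx)]
          · rw [if_neg hx, if_pos (by rw [h1]; exact hx), hodd]
      rw [h4, h5, h6, ← sum_add_distrib]
      refine sum_congr rfl fun x _ => ?_
      by_cases hx : x ∈ Φ <;> simp [hx]
    have h4 : ∑ x ∈ T, (if x ∈ Φ then s x else - s x) =
        2 * ∑ x ∈ T, (if x ∈ Φ then s x else 0) - ∑ x ∈ T, s x := by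
      rw [mul_sum, ← sum_sub_distrib]
      refine sum_congr rfl fun x _ => ?_
      by_cases hx : x ∈ Φ
      · simp only [hx, if_true]
        ring
      · simp only [hx, if_false]
        ring
    rw [h3, h4] at h2
    rw [hA]
    linarith
  have hinj : Set.InjOn A 𝒯 := by
    intro Φ hΦ Φ' hΦ' h
    obtain ⟨h1, -⟩ := h𝒯 Φ hΦ
    obtain ⟨h1', -⟩ := h𝒯 Φ' hΦ'
    have key : ∀ x ∈ T, (x ∈ Φ ↔ x ∈ Φ') := by
      intro x hx
      have h2 : (⟨x, hx⟩ : T) ∈ A Φ ↔ (⟨x, hx⟩ : T) ∈ A Φ' := by rw [h]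
      simpa only [A, mem_filter, mem_univ, true_and] using h2
    ext x
    by_cases hx : x ∈ T
    · exact key x hx
    · have hx' : c x ∈ T := (hTc x).2 hx
      have h2 := key _ hx'
      rw [h1, h1'] at h2
      tauto
  rw [← card_image_of_injOn hinj]
  have hanti : IsAntichain (· ⊆ ·) ((𝒯.image A : Finset (Finset T)) : Set (Finset T)) := by
    intro P hP Q hQ hne hsub
    rw [mem_coe, mem_image] at hP hQ
    obtain ⟨Φ, hΦ, rfl⟩ := hP
    obtain ⟨Φ', hΦ', rfl⟩ := hQ
    obtain ⟨y, hy1, hy2⟩ := exists_of_ssubset (Finset.ssubset_iff_subset_ne.2 ⟨hsub, hne⟩)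
    have hlt : ∑ x ∈ A Φ, s x.1 < ∑ x ∈ A Φ', s x.1 :=
      sum_lt_sum_of_subset hsub hy1 hy2 ((hT _).1 y.2) (fun i _ _ => ((hT _).1 i.2).le)
    have h1 := hval Φ hΦ
    have h2 := hval Φ' hΦ'
    linarith
  have h2 := hanti.sperner
  rw [Fintype.card_coe, hcard] at h2
  exact h2

end Pool.Agent.Y1.CO
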