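import Mathlib
import Pool.Agent.Y1.CO.Defs
import Pool.Agent.Y1.CO.Gen
import Pool.Agent.TH170.MF.Min

/-!
# Linear forms on the averages of odd functions on the embeddings
-/

set_option autoImplicit false
set_option linter.unusedSectionVars false

namespace Pool.Agent.Y1.CO

open Finset Pool.Agent.Y144.CZ

variable {G : Type} [Group G] [Fintype G] {c : G}

/-- The class function which belongs to a function on the embeddings. -/
noncomputable def avm {H : Subgroup G} (ψ : G ⧸ H) : (G ⧸ H → ℚ) →ₗ[ℚ] (G → ℚ) where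
  toFun f := fun g => (∑ η : G, f ((η⁻¹ * g * η) • ψ)) / Nat.card G
  map_add' f f' := by
    funext g
    simp only [Pi.add_apply, sum_add_distrib, add_div]
  map_smul' q f := by
    funext g
    simp only [Pi.smul_apply, smul_eq_mul, ← mul_sum, mul_div_assoc, RingHom.id_apply]

theorem avm_apply {H : Subgroup G} (ψ : G ⧸ H) (f : G ⧸ H → ℚ) (g : G) :
    avm ψ f g = (∑ η : G, f ((η⁻¹ * g * η) • ψ)) / Nat.card G := rfl

theorem avm_smul {H : Subgroup G} (ψ : G ⧸ H) (γ : G) (f : G ⧸ H → ℚ) :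
    avm ψ (fun x => f (γ • x)) = avm (γ • ψ) f := by
  funext g
  rw [avm_apply, avm_apply]
  congr 1
  refine Fintype.sum_equiv (Equiv.mulRight γ⁻¹) _ _ fun η => ?_
  show f (γ • (η⁻¹ * g * η) • ψ) = f (((η * γ⁻¹)⁻¹ * g * (η * γ⁻¹)) • γ • ψ)
  rw [smul_smul, smul_smul]
  congr 2
  group

open Classical in
/-- The sign function of a set. -/
noncomputable def sg {X : Type} (Φ : Finset X) : X → ℚ := fun x => if x ∈ Φ then 1 else -1

theorem sg_pos {X : Type} {Φ : Finset X} {x : X} (h : x ∈ Φ) : sg Φ x = 1 := if_pos h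

theorem sg_neg {X : Type} {Φ : Finset X} {x : X} (h : x ∉ Φ) : sg Φ x = -1 := if_neg h

theorem sg_eq {X : Type} (Φ : Finset X) (x : X) : sg Φ x = 2 * ind (x ∈ Φ) - 1 := by
  by_cases h : x ∈ Φ
  · rw [sg_pos h, ind_pos h]
    norm_num
  · rw [sg_neg h, ind_neg h]
    norm_num

theorem sg_odd {H : Subgroup G} {Φ : Finset (G ⧸ H)} (hΦ : ∀ x : G ⧸ H, c • x ∈ Φ ↔ x ∉ Φ)
    (x : G ⧸ H) : sg Φ (c • x) = - sg Φ x := by
  by_cases h : x ∈ Φ
  · rw [sg_pos h, sg_neg (by rw [hΦ]; exact not_not.2 h)]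
  · rw [sg_neg h, sg_pos (by rw [hΦ]; exact h), neg_neg]

theorem avm_sg (d : Datum G c) : avm d.ψ (sg d.Φ) = (2 : ℚ) • a0 d - (fun _ => 1) := by
  funext g
  rw [avm_apply, Pi.sub_apply, Pi.smul_apply, a0_eq, smul_eq_mul,
    sum_congr rfl fun η _ => sg_eq d.Φ ((η⁻¹ * g * η) • d.ψ), sum_sub_distrib, ← mul_sum,
    sum_one, sub_div, div_self card_ne, mul_div_assoc]

theorem D_sg (D : (G → ℚ) →ₗ[ℚ] ℝ) (hD1 : D (fun _ => 1) = 0) (d : Datum G c) :
    D (avm d.ψ (sg d.Φ)) = 2 * D (a0 d) := by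
  rw [avm_sg, map_sub, hD1, sub_zero, map_smul, Rat.smul_def]
  norm_num

/-- The odd functions all whose class functions are killed by `D`. -/
def ker (D : (G → ℚ) →ₗ[ℚ] ℝ) (c : G) (H : Subgroup G) : Submodule ℚ (G ⧸ H → ℚ) where
  carrier := {f | (∀ x, f (c • x) = - f x) ∧ ∀ ψ, D (avm ψ f) = 0}
  zero_mem' := by
    refine ⟨fun x => ?_, fun ψ => ?_⟩
    · simp
    · rw [map_zero, map_zero]
  add_mem' := by
    rintro f f' ⟨h1, h2⟩ ⟨h1', h2'⟩
    refine ⟨fun x => ?_, fun ψ => ?_⟩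
    · rw [Pi.add_apply, Pi.add_apply, h1, h1']
      ring
    · rw [map_add, map_add, h2, h2', add_zero]
  smul_mem' := by
    rintro q f ⟨h1, h2⟩
    refine ⟨fun x => ?_, fun ψ => ?_⟩
    · rw [Pi.smul_apply, Pi.smul_apply, h1, smul_neg]
    · rw [map_smul, map_smul, h2, smul_zero]

theorem mem_ker (D : (G → ℚ) →ₗ[ℚ] ℝ) (H : Subgroup G) (f : G ⧸ H → ℚ) :
    f ∈ ker D c H ↔ (∀ x, f (c • x) = - f x) ∧ ∀ ψ, D (avm ψ f) = 0 := Iff.rfl

theorem ker_smul (hc : ∀ x : G, c * x = x * c) (D : (G → ℚ) →ₗ[ℚ] ℝ) (H : Subgroup G) (γ : G)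
    (f : G ⧸ H → ℚ) (hf : f ∈ ker D c H) : (fun x => f (γ • x)) ∈ ker D c H := by
  refine ⟨fun x => ?_, fun ψ => ?_⟩
  · show f (γ • c • x) = - f (γ • x)
    rw [smul_smul, ← hc, ← smul_smul, hf.1]
  · rw [avm_smul]
    exact hf.2 _

/-- The odd functions which are orthogonal to `ker`. -/
def orth (D : (G → ℚ) →ₗ[ℚ] ℝ) (c : G) (H : Subgroup G) : Submodule ℚ (G ⧸ H → ℚ) where
  carrier := {s | (∀ x, s (c • x) = - s x) ∧ ∀ f ∈ ker D c H, ∑ x, f x * s x = 0}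
  zero_mem' := by
    refine ⟨fun x => ?_, fun f _ => ?_⟩
    · simp
    · simp
  add_mem' := by
    rintro s s' ⟨h1, h2⟩ ⟨h1', h2'⟩
    refine ⟨fun x => ?_, fun f hf => ?_⟩
    · rw [Pi.add_apply, Pi.add_apply, h1, h1']
      ring
    · simp only [Pi.add_apply, mul_add, sum_add_distrib]
      rw [h2 f hf, h2' f hf, add_zero]
  smul_mem' := by
    rintro q s ⟨h1, h2⟩
    refine ⟨fun x => ?_, fun f hf => ?_⟩
    · rw [Pi.smul_apply, Pi.smul_apply, h1, smul_neg]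
    · have h3 : ∑ x, f x * (q • s) x = q * ∑ x, f x * s x := by
        rw [mul_sum]
        refine sum_congr rfl fun x _ => ?_
        rw [Pi.smul_apply, smul_eq_mul]
        ring
      rw [h3, h2 f hf, mul_zero]

theorem orth_smul (hc : ∀ x : G, c * x = x * c) (D : (G → ℚ) →ₗ[ℚ] ℝ) (H : Subgroup G) (γ : G)
    (s : G ⧸ H → ℚ) (hs : s ∈ orth D c H) : (fun x => s (γ • x)) ∈ orth D c H := by
  refine ⟨fun x => ?_, fun f hf => ?_⟩
  · show s (γ • c • x) = - s (γ • x)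
    rw [smul_smul, ← hc, ← smul_smul, hs.1]
  · rw [← hs.2 _ (ker_smul hc D H γ⁻¹ f hf)]
    refine Fintype.sum_equiv (MulAction.toPerm γ) _ _ fun x => ?_
    show f x * s (γ • x) = f (γ⁻¹ • γ • x) * s (γ • x)
    rw [inv_smul_smul]

theorem orth_ne_bot (D : (G → ℚ) →ₗ[ℚ] ℝ) (H : Subgroup G) (f : G ⧸ H → ℚ)
    (hf : ∀ x, f (c • x) = - f x) (ψ : G ⧸ H) (hψ : D (avm ψ f) ≠ 0) : orth D c H ≠ ⊥ := by
  rw [Submodule.ne_bot_iff]
  refine ⟨f - TH170.MF.proj (ker D c H) f, ⟨fun x => ?_, fun k hk => ?_⟩, fun h => ?_⟩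
  · rw [Pi.sub_apply, Pi.sub_apply, hf, (TH170.MF.proj_mem (ker D c H) f).1]
    ring
  · exact (TH170.MF.mem_orth _ _).1 (TH170.MF.sub_proj_mem (ker D c H) f) k hk
  · rw [sub_eq_zero] at h
    apply hψ
    rw [h]
    exact (TH170.MF.proj_mem (ker D c H) f).2 ψ

/-- A failure for a subfield gives a failure for the field. -/
theorem exists_of_fail (D : (G → ℚ) →ₗ[ℚ] ℝ) (hD1 : D (fun _ => 1) = 0) (d : Datum G c)
    (hd : D (a0 d) ≠ 0) (H : Subgroup G) (hH : H ≤ d.H) :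
    ∃ f : G ⧸ H → ℚ, (∀ x, f (c • x) = - f x) ∧ ∃ ψ : G ⧸ H, D (avm ψ f) ≠ 0 := by
  have hπ : ∀ (g : G) (x : G ⧸ H),
      Subgroup.quotientMapOfLE hH (g • x) = g • Subgroup.quotientMapOfLE hH x := by
    intro g x
    obtain ⟨y, rfl⟩ := QuotientGroup.mk_surjective x
    rfl
  obtain ⟨y, hy⟩ := QuotientGroup.mk_surjective d.ψ
  have hψ : Subgroup.quotientMapOfLE hH (y : G ⧸ H) = d.ψ := hy
  refine ⟨fun x => sg d.Φ (Subgroup.quotientMapOfLE hH x), fun x => ?_, (y : G ⧸ H), ?_⟩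
  · show sg d.Φ (Subgroup.quotientMapOfLE hH (c • x)) = _
    rw [hπ, sg_odd d.cm]
  · have h1 : avm (y : G ⧸ H) (fun x => sg d.Φ (Subgroup.quotientMapOfLE hH x)) =
        avm d.ψ (sg d.Φ) := by
      funext g
      rw [avm_apply, avm_apply]
      congr 1
      refine sum_congr rfl fun η _ => ?_
      rw [hπ, hψ]
    rw [h1, D_sg D hD1]
    exact mul_ne_zero two_ne_zero hd

/-- the sum of an odd function over all embeddings is zero -/
theorem sum_odd {H : Subgroup G} (u : G ⧸ H → ℚ) (hu : ∀ x, u (c • x) = - u x) :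
    ∑ x, u x = 0 := by
  have h1 : ∑ x, u x = ∑ x, u (c • x) :=
    (Fintype.sum_equiv (MulAction.toPerm c) _ _ fun x => rfl).symm
  rw [sum_congr rfl fun x _ => hu x, sum_neg_distrib] at h1
  linarith

open Classical in
/-- the sum over a translate of the type -/
theorem sum_filter_eq {H : Subgroup G} (Φ : Finset (G ⧸ H)) (u : G ⧸ H → ℚ)
    (hu : ∀ x, u (c • x) = - u x) (γ : G) :
    2 * ∑ x ∈ univ.filter (fun x : G ⧸ H => γ • x ∈ Φ), u x = ∑ x, sg Φ (γ • x) * u x := by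
  have h1 : ∑ x, sg Φ (γ • x) * u x =
      ∑ x, (2 * (if γ • x ∈ Φ then u x else 0) - u x) := by
    refine sum_congr rfl fun x _ => ?_
    by_cases h : γ • x ∈ Φ
    · rw [sg_pos h, if_pos h]
      ring
    · rw [sg_neg h, if_neg h]
      ring
  rw [h1, sum_sub_distrib, sum_odd u hu, sub_zero, ← mul_sum, sum_filter]

/-- A nondegenerate type satisfies nothing which does not hold for all. -/
theorem nondeg_fail (hc : ∀ x : G, c * x = x * c) (D : (G → ℚ) →ₗ[ℚ] ℝ)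
    (hD1 : D (fun _ => 1) = 0) (H : Subgroup G) (h0 : orth D c H ≠ ⊥) (Φ : CMType c H)
    (hΦ : Nondegenerate c Φ) :
    ∃ ψ : G ⧸ H, D (a0 (⟨H, ψ, Φ.1, Φ.2⟩ : Datum G c)) ≠ 0 := by
  classical
  by_contra hno
  push Not at hno
  have hk : sg Φ.1 ∈ ker D c H := by
    refine ⟨fun x => sg_odd Φ.2 x, fun ψ => ?_⟩
    have h1 := D_sg D hD1 (⟨H, ψ, Φ.1, Φ.2⟩ : Datum G c)
    rw [hno, mul_zero] at h1
    exact h1
  obtain ⟨u, hu, hu0⟩ := (Submodule.ne_bot_iff _).1 h0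
  apply hu0
  refine hΦ u hu.1 fun γ => ?_
  have h1 := sum_filter_eq Φ.1 u hu.1 γ
  rw [hu.2 _ (ker_smul hc D H γ _ hk)] at h1
  have h2 : ∀ a : ℚ, 2 * a = 0 → a = 0 := fun a ha => by linarith
  exact h2 _ h1

open Classical in
/-- The number of types which satisfy the formula for all embeddings. -/
theorem card_all_le (hc : ∀ x : G, c * x = x * c) (hcc : c * c = 1) (D : (G → ℚ) →ₗ[ℚ] ℝ)
    (hD1 : D (fun _ => 1) = 0) (H : Subgroup G) (h0 : orth D c H ≠ ⊥) {g : ℕ}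
    (hg : Nat.card (G ⧸ H) = 2 * g) :
    Nat.card {Φ : CMType c H // ∀ ψ : G ⧸ H, D (a0 (⟨H, ψ, Φ.1, Φ.2⟩ : Datum G c)) = 0} ≤
      g.choose (g / 2) := by
  obtain ⟨s, hs, hs0⟩ := exists_full (G := G) (orth D c H)
    (fun γ u hu => orth_smul hc D H γ u hu) h0
  let 𝒯 : Finset (Finset (G ⧸ H)) := univ.filter (fun Φ => (∀ x, c • x ∈ Φ ↔ x ∉ Φ) ∧
    ∑ x ∈ Φ, s x = 0)
  have h1 := card_half_le (c := fun x : G ⧸ H => c • x) (fun x => by
      show c • c • x = x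
      rw [smul_smul, hcc, one_smul]) (g := g) (by rw [← Nat.card_eq_fintype_card, hg]) s hs.1 hs0
    𝒯 (fun Φ hΦ => (mem_filter.1 hΦ).2)
  refine le_trans ?_ h1
  rw [← Nat.card_eq_finsetCard]
  refine Nat.card_le_card_of_injective (fun Φ => (⟨Φ.1.1, ?_⟩ : 𝒯)) ?_
  · rw [mem_filter]
    refine ⟨mem_univ _, Φ.1.2, ?_⟩
    have hk : sg Φ.1.1 ∈ ker D c H := by
      refine ⟨fun x => sg_odd Φ.1.2 x, fun ψ => ?_⟩
      have h2 := D_sg D hD1 (⟨H, ψ, Φ.1.1, Φ.1.2⟩ : Datum G c)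
      rw [Φ.2, mul_zero] at h2
      exact h2
    have h2 := sum_filter_eq Φ.1.1 s hs.1 1
    simp only [one_smul] at h2
    rw [hs.2 _ hk] at h2
    have h3 : (univ.filter (fun x : G ⧸ H => x ∈ Φ.1.1)) = Φ.1.1 := by
      ext x
      simp
    rw [h3] at h2
    linarith
  · intro Φ Φ' h
    have h2 : Φ.1.1 = Φ'.1.1 := congrArg (fun y : 𝒯 => y.1) h
    exact Subtype.ext (Subtype.ext h2)

/-- the linear form does not vanish on a pair -/
theorem exists_pair (D : (G → ℚ) →ₗ[ℚ] ℝ) (H : Subgroup G) (ψ : G ⧸ H) (hcc : c * c = 1)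
    (h : ∃ f : G ⧸ H → ℚ, (∀ x, f (c • x) = - f x) ∧ D (avm ψ f) ≠ 0) :
    ∃ x₀ : G ⧸ H, D (avm ψ (fun x => ind (x = x₀) - ind (x = c • x₀))) ≠ 0 := by
  classical
  obtain ⟨f, hf, hψ⟩ := h
  by_contra hno
  push Not at hno
  have h1 : (2 : ℚ) • f = ∑ y, f y • (fun x : G ⧸ H => ind (x = y) - ind (x = c • y)) := by
    funext x
    rw [Finset.sum_apply, Pi.smul_apply, smul_eq_mul]
    simp only [Pi.smul_apply, smul_eq_mul, mul_sub, sum_sub_distrib]
    have h2 : ∑ y, f y * ind (x = y) = f x := by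
      rw [sum_eq_single x]
      · rw [ind_pos rfl, mul_one]
      · intro y _ hy
        rw [ind_neg (fun h => hy h.symm), mul_zero]
      · intro h
        exact absurd (mem_univ _) h
    have h3 : ∑ y, f y * ind (x = c • y) = - f x := by
      rw [sum_eq_single (c • x)]
      · rw [ind_pos (by rw [smul_smul, hcc, one_smul]), mul_one, hf]
      · intro y _ hy
        rw [ind_neg (fun h => hy (by rw [h, smul_smul, hcc, one_smul])), mul_zero]
      · intro h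
        exact absurd (mem_univ _) h
    rw [h2, h3]
    ring
  have h2 : D (avm ψ ((2 : ℚ) • f)) = 0 := by
    rw [h1, map_sum, map_sum]
    refine sum_eq_zero fun y _ => ?_
    rw [map_smul, map_smul, hno, smul_zero]
  rw [map_smul, map_smul, Rat.smul_def] at h2
  apply hψ
  have h3 : ((2 : ℚ) : ℝ) ≠ 0 := by norm_num
  exact (mul_eq_zero.1 h2).resolve_left h3

end Pool.Agent.Y1.CO
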