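import Mathlib
import Pool.Agent.Y1.CO.Main

/-!
# Exchange of a pair of conjugate embeddings in a CM type
-/

set_option autoImplicit false
set_option linter.unusedSectionVars false

namespace Pool.Agent.Y1.CO

open Finset Pool.Agent.Y144.CZ

variable {G : Type} [Group G] [Fintype G] {c : G} {H : Subgroup G}

/-- `1` at `x₀` and `-1` at its conjugate -/
noncomputable def dl (c : G) {H : Subgroup G} (x₀ : G ⧸ H) : G ⧸ H → ℚ :=
  fun x => ind (x = x₀) - ind (x = c • x₀)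

open Classical in
/-- the type with `x₀` and `c x₀` exchanged -/
noncomputable def swap (hcc : c * c = 1) (x₀ : G ⧸ H) (Φ : CMType c H) : CMType c H :=
  ⟨univ.filter (fun x => ¬ (x ∈ Φ.1 ↔ (x = x₀ ∨ x = c • x₀))), by
    intro x
    simp only [mem_filter, mem_univ, true_and, Φ.2]
    have h1 : (c • x = x₀ ∨ c • x = c • x₀) ↔ (x = x₀ ∨ x = c • x₀) := by
      have e1 : c • x = x₀ ↔ x = c • x₀ := by
        constructor
        · intro h
          rw [← h, smul_smul, hcc, one_smul]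
        · intro h
          rw [h, smul_smul, hcc, one_smul]
      have e2 : c • x = c • x₀ ↔ x = x₀ := smul_left_cancel_iff c
      rw [e1, e2, or_comm]
    rw [h1]
    tauto⟩

theorem mem_swap (hcc : c * c = 1) (x₀ : G ⧸ H) (Φ : CMType c H) (x : G ⧸ H) :
    x ∈ (swap hcc x₀ Φ).1 ↔ ¬ (x ∈ Φ.1 ↔ (x = x₀ ∨ x = c • x₀)) := by
  classical
  unfold swap
  simp only [mem_filter, mem_univ, true_and]

theorem ne_conj (Φ : CMType c H) (x : G ⧸ H) : x ≠ c • x := by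
  intro h
  have h1 := Φ.2 x
  rw [← h] at h1
  tauto

theorem swap_swap (hcc : c * c = 1) (x₀ : G ⧸ H) (Φ : CMType c H) :
    swap hcc x₀ (swap hcc x₀ Φ) = Φ := by
  apply Subtype.ext
  ext x
  rw [mem_swap, mem_swap]
  tauto

theorem sg_swap (hcc : c * c = 1) (x₀ : G ⧸ H) (Φ : CMType c H) :
    sg (swap hcc x₀ Φ).1 = sg Φ.1 - (2 * sg Φ.1 x₀) • dl c x₀ := by
  funext x
  rw [Pi.sub_apply, Pi.smul_apply, smul_eq_mul]
  unfold dl
  have hne := ne_conj Φ x₀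
  by_cases h1 : x = x₀
  · subst h1
    rw [ind_pos rfl, ind_neg hne]
    by_cases h2 : x ∈ Φ.1
    · rw [sg_neg (by rw [mem_swap]; tauto), sg_pos h2]
      norm_num
    · rw [sg_pos (by rw [mem_swap]; tauto), sg_neg h2]
      norm_num
  · by_cases h2 : x = c • x₀
    · subst h2
      rw [ind_pos rfl, ind_neg h1, sg_odd Φ.2]
      by_cases h3 : x₀ ∈ Φ.1
      · rw [sg_pos (by rw [mem_swap, Φ.2]; tauto), sg_pos h3]
        norm_num
      · rw [sg_neg (by rw [mem_swap, Φ.2]; tauto), sg_neg h3]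
        norm_num
    · rw [ind_neg h1, ind_neg h2, sub_zero, mul_zero, sub_zero]
      by_cases h3 : x ∈ Φ.1
      · rw [sg_pos (by rw [mem_swap]; tauto), sg_pos h3]
      · rw [sg_neg (by rw [mem_swap]; tauto), sg_neg h3]

theorem sg_ne (Φ : CMType c H) (x : G ⧸ H) : sg Φ.1 x ≠ 0 := by
  by_cases h : x ∈ Φ.1
  · rw [sg_pos h]
    norm_num
  · rw [sg_neg h]
    norm_num

/-- For one embedding `ψ`, the formula holds for at most half of the types. -/
theorem card_one_le (hcc : c * c = 1) (D : (G → ℚ) →ₗ[ℚ] ℝ) (hD1 : D (fun _ => 1) = 0)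
    (ψ : G ⧸ H) (h : ∃ f : G ⧸ H → ℚ, (∀ x, f (c • x) = - f x) ∧ D (avm ψ f) ≠ 0) :
    2 * Nat.card {Φ : CMType c H // D (a0 (⟨H, ψ, Φ.1, Φ.2⟩ : Datum G c)) = 0} ≤
      Nat.card (CMType c H) := by
  classical
  obtain ⟨x₀, hx₀⟩ := exists_pair D H ψ hcc h
  let P : CMType c H → Prop := fun Φ => D (a0 (⟨H, ψ, Φ.1, Φ.2⟩ : Datum G c)) = 0
  have h1 : Nat.card {Φ // P Φ} ≤ Nat.card {Φ // ¬ P Φ} := by
    refine Nat.card_le_card_of_injective (fun Φ => ⟨swap hcc x₀ Φ.1, fun h2 => hx₀ ?_⟩) ?_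
    · have h3 := D_sg D hD1 (⟨H, ψ, Φ.1.1, Φ.1.2⟩ : Datum G c)
      have h4 := D_sg D hD1 (⟨H, ψ, (swap hcc x₀ Φ.1).1, (swap hcc x₀ Φ.1).2⟩ : Datum G c)
      have h5 : D (a0 (⟨H, ψ, Φ.1.1, Φ.1.2⟩ : Datum G c)) = 0 := Φ.2
      rw [h5, mul_zero] at h3
      rw [h2, mul_zero] at h4
      have h6 : D (avm ψ (sg (swap hcc x₀ Φ.1).1)) = 0 := h4
      have h7 : D (avm ψ (sg Φ.1.1)) = 0 := h3
      rw [sg_swap, map_sub, map_sub, h7, map_smul, map_smul, Rat.smul_def, zero_sub,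
        neg_eq_zero, mul_eq_zero] at h6
      refine h6.resolve_left ?_
      have h8 : 2 * sg Φ.1.1 x₀ ≠ 0 := mul_ne_zero two_ne_zero (sg_ne Φ.1 x₀)
      exact_mod_cast h8
    · intro Φ Φ' h2
      have h3 : swap hcc x₀ Φ.1 = swap hcc x₀ Φ'.1 := congrArg Subtype.val h2
      have h4 := congrArg (swap hcc x₀) h3
      rw [swap_swap, swap_swap] at h4
      exact Subtype.ext h4
  have h2 : Nat.card (CMType c H) = Nat.card {Φ // P Φ} + Nat.card {Φ // ¬ P Φ} := by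
    rw [← Nat.card_sum, Nat.card_congr (Equiv.sumCompl P)]
  have h3 : Nat.card {Φ : CMType c H // D (a0 (⟨H, ψ, Φ.1, Φ.2⟩ : Datum G c)) = 0} =
    Nat.card {Φ // P Φ} := rfl
  omega

end Pool.Agent.Y1.CO
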