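import Mathlib
import Pool.Agent.Y1.CO.Swap

/-!
# The sum over the embeddings in the type is a quadratic function of the type
-/

set_option autoImplicit false
set_option linter.unusedSectionVars false

namespace Pool.Agent.Y1.CO

open Finset Pool.Agent.Y144.CZ

/-- counting with two involutions -/
theorem card_four {α : Type} [Finite α] (P : α → Prop) (f g : α → α) (hf : ∀ a, f (f a) = a)
    (hg : ∀ a, g (g a) = a) (h : ∀ a, ¬ (P a ∧ P (f a) ∧ P (g a) ∧ P (f (g a)))) :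
    4 * Nat.card {a // P a} ≤ 3 * Nat.card α := by
  classical
  have : Fintype α := Fintype.ofFinite α
  let B : Finset α := univ.filter (fun a => ¬ P a)
  have hB : ∀ a, a ∈ B ↔ ¬ P a := fun a => by simp [B]
  have hcov : (univ : Finset α) ⊆ B ∪ B.image f ∪ (B.image g ∪ (B.image f).image g) := by
    intro a _
    simp only [mem_union, mem_image]
    have h1 := h a
    by_cases h2 : P a
    · by_cases h3 : P (f a)
      · by_cases h4 : P (g a)
        · have h5 : ¬ P (f (g a)) := fun h5 => h1 ⟨h2, h3, h4, h5⟩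
          exact Or.inr (Or.inr ⟨g a, ⟨f (g a), (hB _).2 h5, hf _⟩, hg _⟩)
        · exact Or.inr (Or.inl ⟨g a, (hB _).2 h4, hg _⟩)
      · exact Or.inl (Or.inr ⟨f a, (hB _).2 h3, hf _⟩)
    · exact Or.inl (Or.inl ((hB _).2 h2))
  have h1 := card_le_card hcov
  have h2 := card_union_le (B ∪ B.image f) (B.image g ∪ (B.image f).image g)
  have h3 := card_union_le B (B.image f)
  have h4 := card_union_le (B.image g) ((B.image f).image g)
  have h5 : (B.image f).card ≤ B.card := card_image_le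
  have h6 : (B.image g).card ≤ B.card := card_image_le
  have h7 : ((B.image f).image g).card ≤ (B.image f).card := card_image_le
  have h8 : Nat.card α = Nat.card {a // P a} + Nat.card {a // ¬ P a} := by
    rw [← Nat.card_sum, Nat.card_congr (Equiv.sumCompl P)]
  have h9 : Nat.card {a // ¬ P a} = B.card := by
    rw [Nat.card_eq_fintype_card, Fintype.card_subtype]
  have h10 : (univ : Finset α).card = Nat.card α := by
    rw [card_univ, Nat.card_eq_fintype_card]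
  omega

variable {G : Type} [Group G] [Fintype G] {c : G} {H : Subgroup G}

/-- the symmetric bilinear form -/
noncomputable def bf (D : (G → ℚ) →ₗ[ℚ] ℝ) (H : Subgroup G) :
    (G ⧸ H → ℚ) →ₗ[ℚ] (G ⧸ H → ℚ) →ₗ[ℚ] ℝ :=
  LinearMap.mk₂ ℚ (fun f f' => ∑ ψ, ((f ψ : ℝ) * D (avm ψ f') + (f' ψ : ℝ) * D (avm ψ f)))
    (fun f f' k => by
      simp only [Pi.add_apply, map_add, Rat.cast_add, ← sum_add_distrib]
      exact sum_congr rfl fun ψ _ => by ring)
    (fun q f k => by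
      simp only [Pi.smul_apply, map_smul, smul_eq_mul, Rat.cast_mul, Rat.smul_def, mul_sum]
      exact sum_congr rfl fun ψ _ => by ring)
    (fun f f' k => by
      simp only [Pi.add_apply, map_add, Rat.cast_add, ← sum_add_distrib]
      exact sum_congr rfl fun ψ _ => by ring)
    (fun q f k => by
      simp only [Pi.smul_apply, map_smul, smul_eq_mul, Rat.cast_mul, Rat.smul_def, mul_sum]
      exact sum_congr rfl fun ψ _ => by ring)

theorem bf_apply (D : (G → ℚ) →ₗ[ℚ] ℝ) (f f' : G ⧸ H → ℚ) :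
    bf D H f f' = ∑ ψ, ((f ψ : ℝ) * D (avm ψ f') + (f' ψ : ℝ) * D (avm ψ f)) := rfl

theorem bf_symm (D : (G → ℚ) →ₗ[ℚ] ℝ) (f f' : G ⧸ H → ℚ) : bf D H f f' = bf D H f' f := by
  rw [bf_apply, bf_apply]
  exact sum_congr rfl fun ψ _ => add_comm _ _

/-- the sum of an even function -/
theorem sum_even (hcc : c * c = 1) (Φ : CMType c H) (e : G ⧸ H → ℝ)
    (he : ∀ x, e (c • x) = e x) : ∑ x, e x = 2 * ∑ x ∈ Φ.1, e x := by
  classical
  have h1 : ∑ x ∈ Φ.1ᶜ, e x = ∑ x ∈ Φ.1, e x := by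
    refine sum_nbij' (fun x => c • x) (fun x => c • x) ?_ ?_ ?_ ?_ ?_
    · intro x hx
      rw [Φ.2]
      exact mem_compl.1 hx
    · intro x hx
      rw [mem_compl, Φ.2]
      exact not_not.2 hx
    · intro x _
      rw [smul_smul, hcc, one_smul]
    · intro x _
      rw [smul_smul, hcc, one_smul]
    · intro x _
      rw [he]
  rw [← sum_add_sum_compl Φ.1, h1]
  ring

theorem D_conj (hc : ∀ x : G, c * x = x * c) (D : (G → ℚ) →ₗ[ℚ] ℝ) (hD1 : D (fun _ => 1) = 0)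
    (d : Datum G c) : D (a0 d.conj) = - D (a0 d) := by
  have h1 : a0 d.conj = (fun _ => 1) - a0 d := by
    funext g
    rw [a0_conjugate hc]
    rfl
  rw [h1, map_sub, hD1, zero_sub]

theorem bf_sg (hc : ∀ x : G, c * x = x * c) (hcc : c * c = 1) (D : (G → ℚ) →ₗ[ℚ] ℝ)
    (hD1 : D (fun _ => 1) = 0) (Φ : CMType c H) :
    bf D H (sg Φ.1) (sg Φ.1) =
      8 * ∑ ψ ∈ Φ.1, D (a0 (⟨H, ψ, Φ.1, Φ.2⟩ : Datum G c)) := by
  have h1 : ∀ ψ : G ⧸ H, (sg Φ.1 ψ : ℝ) * D (avm ψ (sg Φ.1)) +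
      (sg Φ.1 ψ : ℝ) * D (avm ψ (sg Φ.1)) =
        4 * ((sg Φ.1 ψ : ℝ) * D (a0 (⟨H, ψ, Φ.1, Φ.2⟩ : Datum G c))) := by
    intro ψ
    have h2 := D_sg D hD1 (⟨H, ψ, Φ.1, Φ.2⟩ : Datum G c)
    have h3 : D (avm ψ (sg Φ.1)) = 2 * D (a0 (⟨H, ψ, Φ.1, Φ.2⟩ : Datum G c)) := h2
    rw [h3]
    ring
  rw [bf_apply, sum_congr rfl fun ψ _ => h1 ψ, ← mul_sum, sum_even hcc Φ]
  · have h2 : ∑ x ∈ Φ.1, (sg Φ.1 x : ℝ) * D (a0 (⟨H, x, Φ.1, Φ.2⟩ : Datum G c)) =
        ∑ ψ ∈ Φ.1, D (a0 (⟨H, ψ, Φ.1, Φ.2⟩ : Datum G c)) := by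
      refine sum_congr rfl fun x hx => ?_
      rw [sg_pos hx, Rat.cast_one, one_mul]
    rw [h2]
    ring
  · intro x
    have h2 := D_conj hc D hD1 (⟨H, x, Φ.1, Φ.2⟩ : Datum G c)
    have h3 : D (a0 (⟨H, c • x, Φ.1, Φ.2⟩ : Datum G c)) =
        - D (a0 (⟨H, x, Φ.1, Φ.2⟩ : Datum G c)) := h2
    rw [h3, sg_odd Φ.2, Rat.cast_neg]
    ring

theorem sg_eq_sum (hcc : c * c = 1) (Φ : CMType c H) : sg Φ.1 = ∑ y ∈ Φ.1, dl c y := by
  classical
  funext x
  rw [Finset.sum_apply]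
  unfold dl
  rw [sum_sub_distrib]
  by_cases hx : x ∈ Φ.1
  · have h1 : ∑ y ∈ Φ.1, ind (x = y) = 1 := by
      rw [sum_eq_single x]
      · rw [ind_pos rfl]
      · intro y _ hy
        rw [ind_neg fun h => hy h.symm]
      · intro h
        exact absurd hx h
    have h2 : ∑ y ∈ Φ.1, ind (x = c • y) = 0 := by
      refine sum_eq_zero fun y hy => ?_
      rw [ind_neg]
      intro h
      rw [h, Φ.2] at hx
      exact hx hy
    rw [sg_pos hx, h1, h2, sub_zero]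
  · have h1 : ∑ y ∈ Φ.1, ind (x = y) = 0 := by
      refine sum_eq_zero fun y hy => ?_
      rw [ind_neg]
      intro h
      rw [h] at hx
      exact hx hy
    have h2 : ∑ y ∈ Φ.1, ind (x = c • y) = 1 := by
      rw [sum_eq_single (c • x)]
      · rw [ind_pos (by rw [smul_smul, hcc, one_smul])]
      · intro y _ hy
        rw [ind_neg]
        intro h
        apply hy
        rw [h, smul_smul, hcc, one_smul]
      · intro h
        rw [Φ.2] at h
        exact absurd hx h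
    rw [sg_neg hx, h1, h2, zero_sub]

theorem dl_conj (hcc : c * c = 1) (x : G ⧸ H) : dl c (c • x) = - dl c x := by
  funext y
  rw [Pi.neg_apply]
  unfold dl
  rw [smul_smul, hcc, one_smul]
  ring

/-- if the form is diagonal, it is constant on the types -/
theorem bf_const (hcc : c * c = 1) (D : (G → ℚ) →ₗ[ℚ] ℝ)
    (h : ∀ x y : G ⧸ H, y ≠ x → y ≠ c • x → bf D H (dl c x) (dl c y) = 0) (Φ : CMType c H) :
    2 * bf D H (sg Φ.1) (sg Φ.1) = ∑ x, bf D H (dl c x) (dl c x) := by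
  classical
  rw [sum_even hcc Φ (fun x => bf D H (dl c x) (dl c x)) (fun x => by
    show bf D H (dl c (c • x)) (dl c (c • x)) = _
    rw [dl_conj hcc, map_neg, map_neg, LinearMap.neg_apply, neg_neg])]
  congr 1
  rw [sg_eq_sum hcc Φ, map_sum]
  refine sum_congr rfl fun x hx => ?_
  rw [map_sum, LinearMap.sum_apply, sum_eq_single x]
  · intro y hy hyx
    refine h y x (Ne.symm hyx) fun h1 => ?_
    rw [h1, Φ.2] at hx
    exact hx hy
  · intro h1
    exact absurd hx h1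

theorem sg_sq (Φ : CMType c H) (x : G ⧸ H) : sg Φ.1 x * sg Φ.1 x = 1 := by
  by_cases h : x ∈ Φ.1
  · rw [sg_pos h]
    norm_num
  · rw [sg_neg h]
    norm_num

theorem bf_swap (hcc : c * c = 1) (D : (G → ℚ) →ₗ[ℚ] ℝ) (x : G ⧸ H) (Φ : CMType c H) :
    bf D H (sg (swap hcc x Φ).1) (sg (swap hcc x Φ).1) = bf D H (sg Φ.1) (sg Φ.1) -
      4 * (sg Φ.1 x : ℝ) * bf D H (sg Φ.1) (dl c x) + 4 * bf D H (dl c x) (dl c x) := by
  have h1 : ((sg Φ.1 x : ℚ) : ℝ) * (sg Φ.1 x : ℝ) = 1 := by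
    exact_mod_cast sg_sq Φ x
  rw [sg_swap]
  simp only [map_sub, map_smul, LinearMap.sub_apply, LinearMap.smul_apply, Rat.smul_def]
  rw [bf_symm D (dl c x) (sg Φ.1)]
  push_cast
  linear_combination (4 * bf D H (dl c x) (dl c x)) * h1

theorem bf_four (hcc : c * c = 1) (D : (G → ℚ) →ₗ[ℚ] ℝ) (x y : G ⧸ H) (hxy : x ≠ y)
    (hxy' : x ≠ c • y) (Φ : CMType c H)
    (h1 : bf D H (sg Φ.1) (sg Φ.1) = 0)
    (h2 : bf D H (sg (swap hcc x Φ).1) (sg (swap hcc x Φ).1) = 0)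
    (h3 : bf D H (sg (swap hcc y Φ).1) (sg (swap hcc y Φ).1) = 0)
    (h4 : bf D H (sg (swap hcc x (swap hcc y Φ)).1) (sg (swap hcc x (swap hcc y Φ)).1) = 0) :
    bf D H (dl c y) (dl c x) = 0 := by
  rw [bf_swap, h3] at h4
  rw [bf_swap, h1] at h2
  have e1 : sg (swap hcc y Φ).1 x = sg Φ.1 x := by
    rw [sg_swap, Pi.sub_apply, Pi.smul_apply]
    unfold dl
    rw [ind_neg hxy, ind_neg hxy', sub_zero, smul_zero, sub_zero]
  rw [e1, sg_swap, map_sub, map_smul, LinearMap.sub_apply, LinearMap.smul_apply,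
    Rat.smul_def] at h4
  have h5 : (sg Φ.1 x : ℝ) * (2 * (sg Φ.1 y : ℝ)) * bf D H (dl c y) (dl c x) = 0 := by
    push_cast at h4
    linarith
  rw [mul_eq_zero] at h5
  refine h5.resolve_left ?_
  have h6 : sg Φ.1 x * (2 * sg Φ.1 y) ≠ 0 :=
    mul_ne_zero (sg_ne Φ x) (mul_ne_zero two_ne_zero (sg_ne Φ y))
  exact_mod_cast h6

/-- The formula for the sum over the embeddings in the type (the Faltings height) holds for all
types or for at most three quarters of them. -/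
theorem card_fal_le (hc : ∀ x : G, c * x = x * c) (hcc : c * c = 1) (D : (G → ℚ) →ₗ[ℚ] ℝ)
    (hD1 : D (fun _ => 1) = 0) (H : Subgroup G)
    (h0 : ∃ Φ : CMType c H, ∑ ψ ∈ Φ.1, D (a0 (⟨H, ψ, Φ.1, Φ.2⟩ : Datum G c)) ≠ 0) :
    4 * Nat.card {Φ : CMType c H // ∑ ψ ∈ Φ.1, D (a0 (⟨H, ψ, Φ.1, Φ.2⟩ : Datum G c)) = 0} ≤
      3 * Nat.card (CMType c H) := by
  have key : ∀ Φ : CMType c H, bf D H (sg Φ.1) (sg Φ.1) = 0 ↔
      ∑ ψ ∈ Φ.1, D (a0 (⟨H, ψ, Φ.1, Φ.2⟩ : Datum G c)) = 0 := by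
    intro Φ
    rw [bf_sg hc hcc D hD1, mul_eq_zero]
    constructor
    · intro h
      exact h.resolve_left (by norm_num)
    · intro h
      exact Or.inr h
  by_cases h : ∃ x y : G ⧸ H, y ≠ x ∧ y ≠ c • x ∧ bf D H (dl c x) (dl c y) ≠ 0
  · obtain ⟨x, y, h1, h2, h3⟩ := h
    refine card_four _ (swap hcc y) (swap hcc x) (swap_swap hcc y) (swap_swap hcc x) ?_
    rintro Φ ⟨e1, e2, e3, e4⟩
    exact h3 (bf_four hcc D y x h1 h2 Φ ((key _).2 e1) ((key _).2 e2) ((key _).2 e3)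
      ((key _).2 e4))
  · push Not at h
    obtain ⟨Φ₁, hΦ₁⟩ := h0
    have h1 : IsEmpty {Φ : CMType c H //
        ∑ ψ ∈ Φ.1, D (a0 (⟨H, ψ, Φ.1, Φ.2⟩ : Datum G c)) = 0} := by
      refine ⟨fun Φ => hΦ₁ ?_⟩
      rw [← key]
      have h2 := bf_const hcc D h Φ.1
      have h3 := bf_const hcc D h Φ₁
      rw [(key Φ.1).2 Φ.2, ← h3] at h2
      linarith
    rw [Nat.card_of_isEmpty]
    omega

end Pool.Agent.Y1.CO
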