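import Mathlib
import Pool.Agent.Y1.CO.Quad

/-!
# The number of CM types, and neighbouring types
-/

set_option autoImplicit false
set_option linter.unusedSectionVars false

namespace Pool.Agent.Y1.CO

open Finset Pool.Agent.Y144.CZ

variable {G : Type} [Group G] [Fintype G] {c : G} {H : Subgroup G}

theorem card_type (hcc : c * c = 1) (Φ : CMType c H) {g : ℕ} (hg : Nat.card (G ⧸ H) = 2 * g) :
    Φ.1.card = g := by
  have h := sum_even hcc Φ (fun _ => (1 : ℝ)) (fun _ => rfl)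
  rw [sum_const, sum_const, card_univ, ← Nat.card_eq_fintype_card, hg, nsmul_eq_mul, mul_one,
    nsmul_eq_mul, mul_one] at h
  have h1 : 2 * g = 2 * Φ.1.card := by exact_mod_cast h
  omega

/-- a field with a CM type and `2 g` embeddings has `2 ^ g` CM types -/
theorem card_types (hcc : c * c = 1) (Φ₀ : CMType c H) {g : ℕ}
    (hg : Nat.card (G ⧸ H) = 2 * g) : Nat.card (CMType c H) = 2 ^ g := by
  classical
  let e : CMType c H → Finset Φ₀.1 := fun Φ => univ.filter (fun x : Φ₀.1 => x.1 ∈ Φ.1)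
  have he : ∀ (Φ : CMType c H) (x : Φ₀.1), x ∈ e Φ ↔ x.1 ∈ Φ.1 := by
    intro Φ x
    simp [e]
  have hcx : ∀ x : G ⧸ H, c • c • x = x := fun x => by rw [smul_smul, hcc, one_smul]
  have hb : Function.Bijective e := by
    constructor
    · intro Φ Φ' h
      have key : ∀ x ∈ Φ₀.1, (x ∈ Φ.1 ↔ x ∈ Φ'.1) := by
        intro x hx
        rw [← he Φ ⟨x, hx⟩, h, he Φ' ⟨x, hx⟩]
      apply Subtype.ext
      ext x
      by_cases hx : x ∈ Φ₀.1
      · exact key x hx
      · have h2 := key _ ((Φ₀.2 x).2 hx)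
        rw [Φ.2, Φ'.2] at h2
        tauto
    · intro U
      let V : Finset (G ⧸ H) := U.map (Function.Embedding.subtype _)
      have hV : ∀ x, x ∈ V ↔ ∃ h : x ∈ Φ₀.1, (⟨x, h⟩ : Φ₀.1) ∈ U := by
        intro x
        simp [V]
      have hsub : ∀ x, x ∈ V → x ∈ Φ₀.1 := fun x hx => ((hV x).1 hx).1
      refine ⟨⟨univ.filter (fun x => (x ∈ Φ₀.1 ∧ x ∈ V) ∨ (x ∉ Φ₀.1 ∧ c • x ∉ V)), ?_⟩, ?_⟩
      · intro x
        simp only [mem_filter, mem_univ, true_and, Φ₀.2, hcx]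
        tauto
      · ext x
        rw [he]
        simp only [mem_filter, mem_univ, true_and]
        have h1 := x.2
        have h2 : x.1 ∈ V ↔ x ∈ U := by
          rw [hV]
          constructor
          · rintro ⟨_, h⟩
            exact h
          · intro h
            exact ⟨x.2, h⟩
        rw [h2]
        tauto
  rw [Nat.card_congr (Equiv.ofBijective e hb), Nat.card_eq_fintype_card, Fintype.card_finset,
    Fintype.card_coe, card_type hcc Φ₀ hg]

/-- the element of `Φ` among `x`, `c x` -/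
theorem exists_rep (Φ : CMType c H) (x : G ⧸ H) :
    ∃ x' : G ⧸ H, ∀ z ∈ Φ.1, (z = x ∨ z = c • x) → z = x' := by
  by_cases h : x ∈ Φ.1
  · refine ⟨x, fun z hz hzx => ?_⟩
    rcases hzx with h1 | h1
    · exact h1
    · rw [h1, Φ.2] at hz
      exact absurd h hz
  · refine ⟨c • x, fun z hz hzx => ?_⟩
    rcases hzx with h1 | h1
    · rw [h1] at hz
      exact absurd hz h
    · exact h1

open Classical in
theorem sdiff_swap_swap (hcc : c * c = 1) (Φ : CMType c H) (x y : G ⧸ H) :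
    (Φ.1 \ (swap hcc x (swap hcc y Φ)).1).card ≤ 2 := by
  obtain ⟨x', hx'⟩ := exists_rep Φ x
  obtain ⟨y', hy'⟩ := exists_rep Φ y
  refine le_trans (card_le_card (t := {x', y'}) ?_) card_le_two
  intro z hz
  rw [mem_sdiff, mem_swap, mem_swap] at hz
  rw [mem_insert, mem_singleton]
  obtain ⟨h1, h2⟩ := hz
  by_cases h3 : z = x ∨ z = c • x
  · exact Or.inl (hx' z h1 h3)
  · by_cases h4 : z = y ∨ z = c • y
    · exact Or.inr (hy' z h1 h4)
    · exact absurd h2 (by tauto)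

open Classical in
theorem sdiff_swap (hcc : c * c = 1) (Φ : CMType c H) (x : G ⧸ H) :
    (Φ.1 \ (swap hcc x Φ).1).card ≤ 2 := by
  obtain ⟨x', hx'⟩ := exists_rep Φ x
  refine le_trans (card_le_card (t := {x', x'}) ?_) card_le_two
  intro z hz
  rw [mem_sdiff, mem_swap] at hz
  rw [mem_insert, mem_singleton]
  obtain ⟨h1, h2⟩ := hz
  by_cases h3 : z = x ∨ z = c • x
  · exact Or.inl (hx' z h1 h3)
  · exact absurd h2 (by tauto)

open Classical in
/-- a failure of the formula for the sums can be seen near every type -/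
theorem near_fail (hc : ∀ x : G, c * x = x * c) (hcc : c * c = 1) (D : (G → ℚ) →ₗ[ℚ] ℝ)
    (hD1 : D (fun _ => 1) = 0) (H : Subgroup G)
    (h0 : ∃ Φ : CMType c H, ∑ ψ ∈ Φ.1, D (a0 (⟨H, ψ, Φ.1, Φ.2⟩ : Datum G c)) ≠ 0)
    (Φ : CMType c H) :
    ∃ Φ' : CMType c H, (Φ.1 \ Φ'.1).card ≤ 2 ∧
      ∑ ψ ∈ Φ'.1, D (a0 (⟨H, ψ, Φ'.1, Φ'.2⟩ : Datum G c)) ≠ 0 := by
  have key : ∀ Φ : CMType c H, bf D H (sg Φ.1) (sg Φ.1) = 0 ↔
      ∑ ψ ∈ Φ.1, D (a0 (⟨H, ψ, Φ.1, Φ.2⟩ : Datum G c)) = 0 := by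
    intro Φ
    rw [bf_sg hc hcc D hD1, mul_eq_zero]
    constructor
    · intro h
      exact h.resolve_left (by norm_num)
    · intro h
      exact Or.inr h
  by_contra hno
  push Not at hno
  obtain ⟨Φ₁, hΦ₁⟩ := h0
  apply hΦ₁
  rw [← key]
  have hself : bf D H (sg Φ.1) (sg Φ.1) = 0 := (key _).2 (hno Φ (by rw [sdiff_self]; simp))
  have hdiag : ∀ x y : G ⧸ H, y ≠ x → y ≠ c • x → bf D H (dl c x) (dl c y) = 0 := by
    intro x y h1 h2
    exact bf_four hcc D y x h1 h2 Φ hself ((key _).2 (hno _ (sdiff_swap hcc Φ y)))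
      ((key _).2 (hno _ (sdiff_swap hcc Φ x))) ((key _).2 (hno _ (sdiff_swap_swap hcc Φ y x)))
  have h2 := bf_const hcc D hdiag Φ
  have h3 := bf_const hcc D hdiag Φ₁
  rw [hself, ← h3] at h2
  linarith

end Pool.Agent.Y1.CO
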