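import Mathlib
import Pool.Agent.Y1.CO.CubeR
import Pool.Agent.Y1.CO.Near

/-!
# The number of the types which satisfy the formula for the sums
-/

set_option autoImplicit false
set_option linter.unusedSectionVars false

namespace Pool.Agent.Y1.CO

open Finset Pool.Agent.Y144.CZ

/-- the quadratic function of a symmetric matrix and its derivative -/
theorem quad_flip {ι : Type} [Fintype ι] [DecidableEq ι] (B : ι → ι → ℝ)
    (hB : ∀ i j, B i j = B j i) (i : ι) (s : ι → Bool) :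
    (∑ a, ∑ b, B a b * (Cube.e s a * Cube.e s b)) -
        (∑ a, ∑ b, B a b * (Cube.e (Cube.flip i s) a * Cube.e (Cube.flip i s) b)) =
      2 * (Cube.e s i * Cube.lin (fun a b => if a = b then 0 else 2 * B a b) i s) := by
  let t : ι → ℝ := fun a => if a = i then 2 * Cube.e s i else 0
  have he : ∀ a, Cube.e (Cube.flip i s) a = Cube.e s a - t a := by
    intro a
    show _ = Cube.e s a - (if a = i then 2 * Cube.e s i else 0)
    by_cases h : a = i
    · rw [if_pos h, h, Cube.e_flip]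
      ring
    · rw [if_neg h, Cube.e_flip_ne h, sub_zero]
  have h1 : ∀ a b, B a b * (Cube.e (Cube.flip i s) a * Cube.e (Cube.flip i s) b) =
      B a b * (Cube.e s a * Cube.e s b) - B a b * (t a * Cube.e s b) -
        B a b * (Cube.e s a * t b) + B a b * (t a * t b) := by
    intro a b
    rw [he, he]
    ring
  simp only [h1, sum_add_distrib, sum_sub_distrib]
  have h2 : ∑ a, ∑ b, B a b * (t a * Cube.e s b) =
      2 * Cube.e s i * ∑ b, B i b * Cube.e s b := by
    rw [sum_eq_single i]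
    · rw [mul_sum]
      refine sum_congr rfl fun b _ => ?_
      show B i b * ((if i = i then 2 * Cube.e s i else 0) * Cube.e s b) = _
      rw [if_pos rfl]
      ring
    · intro a _ ha
      refine sum_eq_zero fun b _ => ?_
      show B a b * ((if a = i then 2 * Cube.e s i else 0) * Cube.e s b) = 0
      rw [if_neg ha]
      ring
    · intro h
      exact absurd (mem_univ _) h
  have h3 : ∑ a, ∑ b, B a b * (Cube.e s a * t b) =
      2 * Cube.e s i * ∑ b, B i b * Cube.e s b := by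
    rw [← h2, sum_comm]
    refine sum_congr rfl fun a _ => sum_congr rfl fun b _ => ?_
    rw [hB]
    ring
  have h4 : ∑ a, ∑ b, B a b * (t a * t b) = 4 * B i i := by
    rw [sum_eq_single i, sum_eq_single i]
    · show B i i * ((if i = i then 2 * Cube.e s i else 0) *
        (if i = i then 2 * Cube.e s i else 0)) = _
      rw [if_pos rfl]
      have := Cube.e_mul_self s i
      linear_combination (4 * B i i) * this
    · intro b _ hb
      show B i b * (_ * (if b = i then 2 * Cube.e s i else 0)) = 0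
      rw [if_neg hb]
      ring
    · intro h
      exact absurd (mem_univ _) h
    · intro a _ ha
      refine sum_eq_zero fun b _ => ?_
      show B a b * ((if a = i then 2 * Cube.e s i else 0) * _) = 0
      rw [if_neg ha]
      ring
    · intro h
      exact absurd (mem_univ _) h
  have h5 : Cube.lin (fun a b => if a = b then 0 else 2 * B a b) i s =
      2 * (∑ b, B i b * Cube.e s b) - 2 * (B i i * Cube.e s i) := by
    unfold Cube.lin
    have h6 : ∀ b, (if i = b then 0 else 2 * B i b) * Cube.e s b =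
        2 * (B i b * Cube.e s b) - (if i = b then 2 * (B i i * Cube.e s i) else 0) := by
      intro b
      by_cases h : i = b
      · subst h
        rw [if_pos rfl, if_pos rfl]
        ring
      · rw [if_neg h, if_neg h]
        ring
    rw [sum_congr rfl fun b _ => h6 b, sum_sub_distrib, ← mul_sum, sum_ite_eq,
      if_pos (mem_univ _)]
  rw [h2, h3, h4, h5]
  have := Cube.e_mul_self s i
  linear_combination (4 * B i i) * this

variable {G : Type} [Group G] [Fintype G] {c : G} {H : Subgroup G}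

theorem bf_smul (D : (G → ℚ) →ₗ[ℚ] ℝ) (γ : G) (f f' : G ⧸ H → ℚ) :
    bf D H (fun x => f (γ • x)) (fun x => f' (γ • x)) = bf D H f f' := by
  rw [bf_apply, bf_apply]
  refine Fintype.sum_equiv (MulAction.toPerm γ) _ _ fun ψ => ?_
  show _ = (f (γ • ψ) : ℝ) * D (avm (γ • ψ) f') + (f' (γ • ψ) : ℝ) * D (avm (γ • ψ) f)
  rw [avm_smul, avm_smul]

theorem dl_smul (hc : ∀ x : G, c * x = x * c) (γ : G) (x₀ : G ⧸ H) :
    (fun x => dl c (γ • x₀) (γ • x)) = dl c x₀ := by
  funext x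
  unfold dl
  have e1 : γ • x = γ • x₀ ↔ x = x₀ := smul_left_cancel_iff γ
  have e2 : γ • x = c • γ • x₀ ↔ x = c • x₀ := by
    rw [smul_smul, hc, ← smul_smul]
    exact smul_left_cancel_iff γ
  rw [propext e1, propext e2]

theorem bf_dl_smul (hc : ∀ x : G, c * x = x * c) (D : (G → ℚ) →ₗ[ℚ] ℝ) (γ : G)
    (x y : G ⧸ H) : bf D H (dl c (γ • x)) (dl c (γ • y)) = bf D H (dl c x) (dl c y) := by
  rw [← bf_smul D γ, dl_smul hc, dl_smul hc]

theorem sg_eq_sum' (hcc : c * c = 1) (Φ₀ Φ : CMType c H) :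
    sg Φ.1 = ∑ y ∈ Φ₀.1, sg Φ.1 y • dl c y := by
  classical
  funext x
  rw [Finset.sum_apply]
  simp only [Pi.smul_apply, smul_eq_mul]
  unfold dl
  simp only [mul_sub, sum_sub_distrib]
  by_cases hx : x ∈ Φ₀.1
  · have h1 : ∑ y ∈ Φ₀.1, sg Φ.1 y * ind (x = y) = sg Φ.1 x := by
      rw [sum_eq_single x]
      · rw [ind_pos rfl, mul_one]
      · intro y _ hy
        rw [ind_neg fun h => hy h.symm, mul_zero]
      · intro h
        exact absurd hx h
    have h2 : ∑ y ∈ Φ₀.1, sg Φ.1 y * ind (x = c • y) = 0 := by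
      refine sum_eq_zero fun y hy => ?_
      rw [ind_neg, mul_zero]
      intro h
      rw [h, Φ₀.2] at hx
      exact hx hy
    rw [h1, h2, sub_zero]
  · have h1 : ∑ y ∈ Φ₀.1, sg Φ.1 y * ind (x = y) = 0 := by
      refine sum_eq_zero fun y hy => ?_
      rw [ind_neg, mul_zero]
      intro h
      rw [h] at hx
      exact hx hy
    have h2 : ∑ y ∈ Φ₀.1, sg Φ.1 y * ind (x = c • y) = - sg Φ.1 x := by
      rw [sum_eq_single (c • x)]
      · rw [ind_pos (by rw [smul_smul, hcc, one_smul]), mul_one, sg_odd Φ.2]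
      · intro y _ hy
        rw [ind_neg, mul_zero]
        intro h
        apply hy
        rw [h, smul_smul, hcc, one_smul]
      · intro h
        rw [Φ₀.2] at h
        exact absurd hx h
    rw [h1, h2, zero_sub, neg_neg]

/-- If the form is not diagonal, few types are zeros. -/
theorem card_zero_le (hc : ∀ x : G, c * x = x * c) (hcc : c * c = 1)
    (D : (G → ℚ) →ₗ[ℚ] ℝ) (Φ₀ : CMType c H) {g : ℕ} (hg : Nat.card (G ⧸ H) = 2 * g)
    (hne : ∃ x y : G ⧸ H, y ≠ x ∧ y ≠ c • x ∧ bf D H (dl c x) (dl c y) ≠ 0) :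
    (Nat.card {Φ : CMType c H // bf D H (sg Φ.1) (sg Φ.1) = 0} : ℝ) * (g : ℝ) ^ (1 / 4 : ℝ) ≤
      6 * 2 ^ g := by
  classical
  let ι : Type := {x : G ⧸ H // x ∈ Φ₀.1}
  have hgc : Φ₀.1.card = g := card_type hcc Φ₀ hg
  have hιc : Fintype.card ι = g := by
    rw [← hgc]
    exact Fintype.card_coe _
  let B : ι → ι → ℝ := fun i j => bf D H (dl c i.1) (dl c j.1)
  let C : ι → ι → ℝ := fun i j => if i = j then 0 else 2 * B i j
  have hB : ∀ i j, B i j = B j i := fun i j => bf_symm D _ _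
  have hC : ∀ i j, C i j = C j i := by
    intro i j
    show (if i = j then 0 else 2 * B i j) = (if j = i then 0 else 2 * B j i)
    rw [hB]
    by_cases h : i = j
    · rw [if_pos h, if_pos h.symm]
    · rw [if_neg h, if_neg (Ne.symm h)]
  have hC0 : ∀ i, C i i = 0 := fun i => if_pos rfl
  have hCne : ∀ i j, C i j ≠ 0 ↔ (j ≠ i ∧ B i j ≠ 0) := by
    intro i j
    show (if i = j then 0 else 2 * B i j) ≠ 0 ↔ _
    by_cases h : i = j
    · rw [if_pos h]
      simp [h]
    · rw [if_neg h]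
      simp [Ne.symm h]
  -- the degrees
  let ev : G ⧸ H → G ⧸ H → ℝ := fun x y =>
    if y ≠ x ∧ y ≠ c • x ∧ bf D H (dl c x) (dl c y) ≠ 0 then 1 else 0
  have hcx : ∀ x : G ⧸ H, c • c • x = x := fun x => by rw [smul_smul, hcc, one_smul]
  have hev1 : ∀ x y, ev x (c • y) = ev x y := by
    intro x y
    have e1 : c • y = x ↔ y = c • x := ⟨fun h => by rw [← h, hcx], fun h => by rw [h, hcx]⟩
    have e2 : c • y = c • x ↔ y = x := smul_left_cancel_iff c
    have e3 : bf D H (dl c x) (dl c (c • y)) = - bf D H (dl c x) (dl c y) := by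
      rw [dl_conj hcc, map_neg]
    show (if c • y ≠ x ∧ c • y ≠ c • x ∧ bf D H (dl c x) (dl c (c • y)) ≠ 0 then (1 : ℝ) else 0) =
      if y ≠ x ∧ y ≠ c • x ∧ bf D H (dl c x) (dl c y) ≠ 0 then 1 else 0
    rw [e3]
    have e4 : (c • y ≠ x ∧ c • y ≠ c • x ∧ - bf D H (dl c x) (dl c y) ≠ 0) ↔
        (y ≠ x ∧ y ≠ c • x ∧ bf D H (dl c x) (dl c y) ≠ 0) := by
      rw [ne_eq, e1, ne_eq, e2, neg_ne_zero]
      tauto
    rw [if_congr e4 rfl rfl]
  have hev2 : ∀ (γ : G) x, ∑ y, ev (γ • x) y = ∑ y, ev x y := by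
    intro γ x
    refine (Fintype.sum_equiv (MulAction.toPerm γ) _ _ fun y => ?_).symm
    have e1 : γ • y = γ • x ↔ y = x := smul_left_cancel_iff γ
    have e2 : γ • y = c • γ • x ↔ y = c • x := by
      rw [smul_smul, hc, ← smul_smul]
      exact smul_left_cancel_iff γ
    show (if y ≠ x ∧ y ≠ c • x ∧ bf D H (dl c x) (dl c y) ≠ 0 then (1 : ℝ) else 0) =
      if γ • y ≠ γ • x ∧ γ • y ≠ c • γ • x ∧
        bf D H (dl c (γ • x)) (dl c (γ • y)) ≠ 0 then (1 : ℝ) else 0
    rw [bf_dl_smul hc]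
    refine if_congr ?_ rfl rfl
    rw [ne_eq (γ • y), e1, ne_eq (γ • y), e2]
  have hdeg : ∀ i : ι, 2 * ((univ.filter fun j => C i j ≠ 0).card : ℝ) = ∑ y, ev i.1 y := by
    intro i
    rw [sum_even hcc Φ₀ (ev i.1) (hev1 i.1)]
    congr 1
    rw [← sum_coe_sort Φ₀.1 (ev i.1), card_filter, Nat.cast_sum]
    refine sum_congr rfl fun j _ => ?_
    have h1 : j.1 ≠ c • i.1 := by
      intro h
      have h2 := j.2
      rw [h, Φ₀.2] at h2
      exact h2 i.2
    have h2 : (C i j ≠ 0) ↔ (j.1 ≠ i.1 ∧ j.1 ≠ c • i.1 ∧ bf D H (dl c i.1) (dl c j.1) ≠ 0) := by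
      rw [hCne]
      constructor
      · rintro ⟨h3, h4⟩
        exact ⟨fun h => h3 (Subtype.ext h), h1, h4⟩
      · rintro ⟨h3, -, h4⟩
        exact ⟨fun h => h3 (congrArg Subtype.val h), h4⟩
    show ((if C i j ≠ 0 then 1 else 0 : ℕ) : ℝ) = if _ then (1 : ℝ) else 0
    rw [if_congr h2 rfl rfl]
    split_ifs <;> simp
  obtain ⟨x₁, y₁, hxy1, hxy2, hxy3⟩ := hne
  -- the representative of `x₁` in `Φ₀`
  have hrep : ∃ i₁ : ι, ∑ y, ev i₁.1 y = ∑ y, ev x₁ y := by
    by_cases h : x₁ ∈ Φ₀.1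
    · exact ⟨⟨x₁, h⟩, rfl⟩
    · exact ⟨⟨c • x₁, (Φ₀.2 x₁).2 h⟩, hev2 c x₁⟩
  obtain ⟨i₁, hi₁⟩ := hrep
  have : Nonempty ι := ⟨i₁⟩
  have hpos : 0 < ∑ y, ev x₁ y := by
    refine sum_pos' (fun y _ => ?_) ⟨y₁, mem_univ _, ?_⟩
    · show 0 ≤ if _ then (1 : ℝ) else 0
      split_ifs <;> norm_num
    · show 0 < if _ then (1 : ℝ) else 0
      rw [if_pos ⟨hxy1, hxy2, hxy3⟩]
      norm_num
  obtain ⟨d, hd⟩ : ∃ d, d = (univ.filter fun j => C i₁ j ≠ 0).card := ⟨_, rfl⟩
  have hdpos : 0 < d := by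
    have h1 := hdeg i₁
    rw [hi₁, ← hd] at h1
    have h2 : (0 : ℝ) < d := by linarith
    exact_mod_cast h2
  have hreg : ∀ i, (univ.filter fun j => C i j ≠ 0).card = d := by
    intro i
    obtain ⟨γ, hγ⟩ := MulAction.exists_smul_eq G i₁.1 i.1
    have h1 := hdeg i
    rw [← hγ, hev2 γ, ← hdeg i₁, ← hd] at h1
    have h2 : ((univ.filter fun j => C i j ≠ 0).card : ℝ) = d := by linarith
    exact_mod_cast h2
  let q : (ι → Bool) → ℝ := fun s => ∑ a, ∑ b, B a b * (Cube.e s a * Cube.e s b)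
  have hz := Cube.zeros_quad C hC hC0 q (fun i s => quad_flip B hB i s) d hdpos hreg
  rw [hιc] at hz
  have hN : Cube.N ι = 2 ^ g := by
    unfold Cube.N
    rw [Fintype.card_fun, Fintype.card_bool, hιc]
    push_cast
    rfl
  rw [hN] at hz
  refine le_trans (mul_le_mul_of_nonneg_right ?_ (by positivity)) hz
  -- the types which are zeros inject into the zeros of `q`
  let S : CMType c H → (ι → Bool) := fun Φ i => decide (i.1 ∈ Φ.1)
  have hS : ∀ (Φ : CMType c H) (i : ι), Cube.e (S Φ) i = (sg Φ.1 i.1 : ℝ) := by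
    intro Φ i
    show (if decide (i.1 ∈ Φ.1) = true then (1 : ℝ) else -1) = _
    by_cases h : i.1 ∈ Φ.1
    · rw [sg_pos h]
      simp [h]
    · rw [sg_neg h]
      simp [h]
  have hSq : ∀ Φ : CMType c H, q (S Φ) = bf D H (sg Φ.1) (sg Φ.1) := by
    intro Φ
    have h1 : bf D H (sg Φ.1) (sg Φ.1) = ∑ x ∈ Φ₀.1, ∑ y ∈ Φ₀.1,
        bf D H (dl c x) (dl c y) * ((sg Φ.1 x : ℝ) * (sg Φ.1 y : ℝ)) := by
      conv_lhs => rw [sg_eq_sum' hcc Φ₀ Φ]
      rw [map_sum]
      refine sum_congr rfl fun x _ => ?_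
      rw [map_sum, LinearMap.sum_apply]
      refine sum_congr rfl fun y _ => ?_
      rw [map_smul, map_smul, LinearMap.smul_apply, Rat.smul_def, Rat.smul_def,
        bf_symm D (dl c y) (dl c x)]
      ring
    rw [h1, ← sum_coe_sort Φ₀.1]
    refine sum_congr rfl fun i _ => ?_
    rw [← sum_coe_sort Φ₀.1]
    refine sum_congr rfl fun j _ => ?_
    rw [hS, hS]
  have hSinj : Function.Injective S := by
    intro Φ Φ' h
    have key : ∀ x ∈ Φ₀.1, (x ∈ Φ.1 ↔ x ∈ Φ'.1) := by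
      intro x hx
      have h1 := congrFun h ⟨x, hx⟩
      have h2 : decide (x ∈ Φ.1) = decide (x ∈ Φ'.1) := h1
      rwa [decide_eq_decide] at h2
    apply Subtype.ext
    ext x
    by_cases hx : x ∈ Φ₀.1
    · exact key x hx
    · have h2 := key _ ((Φ₀.2 x).2 hx)
      rw [Φ.2, Φ'.2] at h2
      tauto
  have hcard : Nat.card {Φ : CMType c H // bf D H (sg Φ.1) (sg Φ.1) = 0} ≤
      (univ.filter fun s : ι → Bool => q s = 0).card := by
    rw [← Nat.card_eq_finsetCard]
    refine Nat.card_le_card_of_injective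
      (fun Φ => (⟨S Φ.1, mem_filter.2 ⟨mem_univ _, ?_⟩⟩ :
        {s // s ∈ univ.filter fun s : ι → Bool => q s = 0})) ?_
    · rw [hSq]
      exact Φ.2
    · intro Φ Φ' h
      have h1 : S Φ.1 = S Φ'.1 := congrArg Subtype.val h
      exact Subtype.ext (hSinj h1)
  have hzz : ((univ.filter fun s : ι → Bool => q s = 0).card : ℝ) = Cube.zeros q := by
    unfold Cube.zeros
    rw [card_filter, Nat.cast_sum]
    refine sum_congr rfl fun s _ => ?_
    split_ifs <;> simp
  rw [← hzz]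
  exact_mod_cast hcard

/-- The formula for the sums over the types holds for all types or for few of them. -/
theorem card_fal_small (hc : ∀ x : G, c * x = x * c) (hcc : c * c = 1)
    (D : (G → ℚ) →ₗ[ℚ] ℝ) (hD1 : D (fun _ => 1) = 0) (H : Subgroup G) {g : ℕ}
    (hg : Nat.card (G ⧸ H) = 2 * g)
    (h0 : ∃ Φ : CMType c H, ∑ ψ ∈ Φ.1, D (a0 (⟨H, ψ, Φ.1, Φ.2⟩ : Datum G c)) ≠ 0) :
    (Nat.card {Φ : CMType c H //
        ∑ ψ ∈ Φ.1, D (a0 (⟨H, ψ, Φ.1, Φ.2⟩ : Datum G c)) = 0} : ℝ) * (g : ℝ) ^ (1 / 4 : ℝ) ≤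
      6 * 2 ^ g := by
  have key : ∀ Φ : CMType c H, bf D H (sg Φ.1) (sg Φ.1) = 0 ↔
      ∑ ψ ∈ Φ.1, D (a0 (⟨H, ψ, Φ.1, Φ.2⟩ : Datum G c)) = 0 := by
    intro Φ
    rw [bf_sg hc hcc D hD1, mul_eq_zero]
    constructor
    · intro h
      exact h.resolve_left (by norm_num)
    · intro h
      exact Or.inr h
  obtain ⟨Φ₁, hΦ₁⟩ := h0
  by_cases h : ∃ x y : G ⧸ H, y ≠ x ∧ y ≠ c • x ∧ bf D H (dl c x) (dl c y) ≠ 0
  · have h1 := card_zero_le hc hcc D Φ₁ hg h
    simp only [key] at h1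
    exact h1
  · push Not at h
    have h1 : IsEmpty {Φ : CMType c H //
        ∑ ψ ∈ Φ.1, D (a0 (⟨H, ψ, Φ.1, Φ.2⟩ : Datum G c)) = 0} := by
      refine ⟨fun Φ => hΦ₁ ?_⟩
      rw [← key]
      have h2 := bf_const hcc D h Φ.1
      have h3 := bf_const hcc D h Φ₁
      rw [(key Φ.1).2 Φ.2, ← h3] at h2
      linarith
    rw [Nat.card_of_isEmpty, Nat.cast_zero, zero_mul]
    positivity

end Pool.Agent.Y1.CO
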